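import Pool.Agent.Lib.H54P.Def

set_option autoImplicit false

namespace Pool.Agent.H54P

/-- Word lemma.  `xs` is attached to the first letter `g 0`, `ys` to the last letter `g (p-1)`.

Proof.  Let `t = a.length`, `k = xs.length`, `l = ys.length`, `k + p + l = 2 t`, and
`w e = w (e + t)` for `e < t`, where `w` is the whole word; positions: `xs` at `0, ..., k-1`, `g v`
at `k + v` (`v < p`), `ys` at `k + p, ...`.
(1) `k ≥ t`: then `l < t` and `p ≤ t`.  `g v` (position `k + v`) is equal to the letter at position
`k + v - t` of `xs`, for all `v < p`: first alternative with `(k', m, d) = (k - t, p, p)`.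
(2) `l ≥ t`: symmetric: the letter of `g v` is at position `k + v + t` in `ys`, i.e.
`ys.reverse[2t - 1 - (k+v+t)]`; second alternative with `m = d = p`.
(3) `k < t`, `l < t`, `p ≤ t`: put `m = t - l = k + p - t ≥ 1`, `m' = t - k ≥ 1`, `m + m' = p`.  The
first `m` letters of `xs` (positions `0, ..., m-1`, `m ≤ k`) are the last `m` letters
`g (p-m+u)` (positions `t + u`): first alternative with `(0, m, p)` if `p ≤ 4 m`.  The last `m'`
letters of `ys` (positions `2t-m', ..., 2t-1`) are the first `m'` letters `g 0, ..., g (m'-1)`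
(positions `t - m' , ..., t-1`): second alternative with `(0, m', p)` if `p ≤ 4 m'`.  One of
`p ≤ 2 m`, `p ≤ 2 m'` holds.
(4) `p > t` (then `k + l < t`): if `k ≥ 1` and `t ≤ 4 k`: `xs` is equal to the letters
`g (t-k+u)`, `u < k` (position `u + t = k + (t - k + u)`; here `u + t < k + p` since `l < t - k`):
first alternative `(0, k, t)`.  If `l ≥ 1` and `t ≤ 4 l`: second alternative `(0, l, t)`.
Otherwise `4 k < t` and `4 l < t` (also when `k = 0` or `l = 0`), and
`g v = g (v + t)` for `v < p - t = t - k - l`, where `2 (t - k - l) > t`, so `T t ≤ t - k - l`: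
third alternative with `i = 0`. -/
theorem word (g : ℕ → ℕ) (p : ℕ) (hp : 1 ≤ p) (xs ys a : List ℕ) (ha : a ≠ [])
    (h : xs ++ (List.range p).map g ++ ys = a ++ a) :
    (∃ k m d, 1 ≤ m ∧ m ≤ d ∧ d ≤ 4 * m ∧ d ≤ p ∧ k + m ≤ xs.length ∧
      ∀ u, u < m → xs.getD (k + u) 0 = g (d - m + u)) ∨
    (∃ k m d, 1 ≤ m ∧ m ≤ d ∧ d ≤ 4 * m ∧ d ≤ p ∧ k + m ≤ ys.length ∧
      ∀ u, u < m → ys.reverse.getD (k + u) 0 = g (p - 1 - (d - m + u))) ∨
    (∃ t i, 1 ≤ t ∧ i + T t + t ≤ p ∧ ∀ u, u < T t → g (i + u) = g (i + u + t)) := by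
  set k := xs.length with hk
  set l := ys.length with hl
  set t := a.length with ht
  have hlen : k + p + l = 2 * t := by
    have h1 := congrArg List.length h
    simp only [List.length_append, List.length_map, List.length_range] at h1
    omega
  have ht1 : 1 ≤ t := List.length_pos_iff.2 ha
  obtain ⟨W, hX, hG, hY, hP⟩ : ∃ W : ℕ → ℕ, (∀ i, i < k → xs.getD i 0 = W i) ∧
      (∀ v, v < p → g v = W (k + v)) ∧ (∀ j, j < l → ys.getD j 0 = W (k + p + j)) ∧
      (∀ i, i < t → W i = W (i + t)) := by
    refine ⟨fun i => (xs ++ (List.range p).map g ++ ys).getD i 0, ?_, ?_, ?_, ?_⟩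
    · intro i hi
      simp only
      rw [List.append_assoc, List.getD_append _ _ _ _ hi]
    · intro v hv
      simp only
      rw [List.append_assoc, List.getD_append_right _ _ _ _ (by omega),
        List.getD_append _ _ _ _ (by simp; omega)]
      have e : k + v - xs.length = v := by omega
      rw [e]
      simp [List.getD_eq_getElem?_getD, hv]
    · intro j hj
      simp only
      rw [List.getD_append_right _ _ _ _ (by simp; omega)]
      congr 1
      simp
      omega
    · intro i hi
      simp only
      rw [h, List.getD_append _ _ _ _ hi, List.getD_append_right _ _ _ _ (by omega)]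
      congr 1
      omega
  have hR : ∀ j, j < l → ys.reverse.getD j 0 = W (k + p + (l - 1 - j)) := by
    intro j hj
    rw [← hY _ (by omega)]
    rw [List.getD_eq_getElem?_getD, List.getD_eq_getElem?_getD, List.getElem?_reverse (by omega)]
  clear h
  by_cases c1 : t ≤ k
  · left
    refine ⟨k - t, p, p, hp, le_rfl, by omega, le_rfl, by omega, fun u hu => ?_⟩
    rw [hX _ (by omega), hP _ (by omega), hG _ (by omega)]
    congr 1
    omega
  by_cases c2 : t ≤ l
  · right; left
    refine ⟨l - t, p, p, hp, le_rfl, by omega, le_rfl, by omega, fun u hu => ?_⟩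
    rw [hR _ (by omega), hG _ (by omega), hP (k + _) (by omega)]
    congr 1
    omega
  by_cases c3 : p ≤ t
  · by_cases c4 : p ≤ 2 * (t - l)
    · left
      refine ⟨0, t - l, p, by omega, by omega, by omega, le_rfl, by omega, fun u hu => ?_⟩
      rw [hX _ (by omega), hP _ (by omega), hG _ (by omega)]
      congr 1
      omega
    · right; left
      refine ⟨0, t - k, p, by omega, by omega, by omega, le_rfl, by omega, fun u hu => ?_⟩
      rw [hR _ (by omega), hG _ (by omega), hP (k + _) (by omega)]
      congr 1
      omega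
  by_cases c5 : t ≤ 4 * k
  · left
    refine ⟨0, k, t, by omega, by omega, by omega, by omega, by omega, fun u hu => ?_⟩
    rw [hX _ (by omega), hP _ (by omega), hG _ (by omega)]
    congr 1
    omega
  by_cases c6 : t ≤ 4 * l
  · right; left
    refine ⟨0, l, t, by omega, by omega, by omega, by omega, by omega, fun u hu => ?_⟩
    rw [hR _ (by omega), hG _ (by omega), hP (k + _) (by omega)]
    congr 1
    omega
  right; right
  refine ⟨t, 0, ht1, by unfold T; omega, fun u hu => ?_⟩
  unfold T at hu
  rw [hG _ (by omega), hG _ (by omega), hP _ (by omega)]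
  congr 1
  omega

end Pool.Agent.H54P
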