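import Pool.Agent.Lib.H54P.A1

set_option autoImplicit false

namespace Pool.Agent.H54P

/-- Arithmetic of the step. -/
theorem arith (K s m d r e : ℕ) (hK : 1 ≤ K) (hs : s + 1 ≤ K) (he : 1 ≤ e) (hm : m = e + r)
    (hmd : m ≤ d) (h1 : d * K ≤ (5 * K - s) * m) (h2 : r = 0 ∨ (5 * K + 1 - s) * r < d * K) :
    e ≤ d - r ∧ d - r ≤ (20 * K + 5) * e := by
  obtain ⟨T, hT⟩ : ∃ T, 5 * K = T + s := ⟨5 * K - s, by omega⟩
  have h5 : 5 * K - s = T := by omega
  have h6 : 5 * K + 1 - s = T + 1 := by omega
  rw [h5] at h1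
  rw [h6] at h2
  have hTK : T ≤ 5 * K := by omega
  have hd5 : d ≤ 5 * m := by
    have h7 : T * m ≤ (5 * K) * m := Nat.mul_le_mul_right _ hTK
    have h8 : d * K ≤ (5 * m) * K := by
      calc d * K ≤ (5 * K) * m := le_trans h1 h7
        _ = (5 * m) * K := by ring
    exact Nat.le_of_mul_le_mul_right h8 hK
  refine ⟨by omega, ?_⟩
  have hexp : (20 * K + 5) * e = 4 * ((5 * K) * e) + 5 * e := by ring
  rw [hexp]
  rcases h2 with h2 | h2
  · subst h2
    omega
  · have h7 : (T + 1) * r < T * m := lt_of_lt_of_le h2 h1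
    have h8 : r < T * e := by
      rw [hm] at h7
      have h9 : (T + 1) * r = T * r + r := by ring
      have h10 : T * (e + r) = T * r + T * e := by ring
      rw [h9, h10] at h7
      omega
    have h9 : T * e ≤ (5 * K) * e := Nat.mul_le_mul_right _ hTK
    omega

/-- A match of the upward word of the vertex `(x, g) :: c` with an ancestor path gives a match of
the part on the new path `g` alone, with a far end at distance at most `(20 K + 5) e'`, where `e'`
is its length.

Proof.  Let `m` be the length of the match, `pre = (x, g) :: pre'` (so `c = pre' ++ (e,h) :: rest`).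
If `m ≤ x + 1` take `e' = m`, `δ = d` (`arith` with `r = 0`).  If `m > x + 1` put `e' = x + 1`,
`r = m - (x + 1) ≥ 1`, `δ = d - r`.  Then `r ≤ len pre'`, so `pre' ≠ []`, and by `Val n K c` (with
`r` instead of `m`, the same `d`) we get `¬ (d * K ≤ (5 * K + 1 - c.length) * r)`, because the last
`r` letters of the match would contradict `Val` (`wd ((x,g) :: pre') (x + 1 + u) = wd pre' u`).
Now `arith` with `s = c.length` (`((x,g) :: c).length = c.length + 1`).  -/
theorem reduce (n K : ℕ) (hK : 1 ≤ K) (c : Ctx) (hc : c.length + 1 ≤ K) (hv : Val n K c)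
    (g : ℕ → ℕ) (x : ℕ)
    (hev : ∀ e h, (e, h) ∈ c → ∀ (up : Bool) (m δ : ℕ), 1 ≤ m → m ≤ x + 1 → m ≤ δ →
      δ ≤ (20 * K + 5) * m → ∃ u, u < m ∧ g (x - u) ≠ h (pos up e (δ - m + 1 + u))) :
    Val n K ((x, g) :: c) := by
  intro pre0 e h rest hc0 hne up m d h1 hmd hmlen hdK hfit
  obtain ⟨pre, rfl, hcp⟩ : ∃ pre, pre0 = (x, g) :: pre ∧ c = pre ++ (e, h) :: rest := by
    cases pre0 with
    | nil => exact absurd rfl hne
    | cons a pre =>
      rw [List.cons_append, List.cons.injEq] at hc0
      exact ⟨pre, by rw [hc0.1], hc0.2⟩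
  have hmem : (e, h) ∈ c := by rw [hcp]; simp
  have hlen1 : ((x, g) :: c).length = c.length + 1 := rfl
  rw [hlen1] at hdK
  have e1 : 5 * K + 1 - (c.length + 1) = 5 * K - c.length := by omega
  rw [e1] at hdK
  have hw1 : ∀ u, u ≤ x → wd ((x, g) :: pre) u = g (x - u) := by
    intro u hu
    show (if u ≤ x then g (x - u) else wd pre (u - x - 1)) = g (x - u)
    rw [if_pos hu]
  have hw2 : ∀ u, wd ((x, g) :: pre) (x + 1 + u) = wd pre u := by
    intro u
    show (if x + 1 + u ≤ x then g (x - (x + 1 + u)) else wd pre (x + 1 + u - x - 1)) = wd pre u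
    rw [if_neg (by omega)]
    congr 1
    omega
  by_cases hmx : m ≤ x + 1
  · obtain ⟨ha1, ha2⟩ := arith K c.length m d 0 m hK hc h1 (by omega) hmd hdK (Or.inl rfl)
    obtain ⟨u, hu, hne'⟩ := hev e h hmem up m d h1 hmx hmd (by simpa using ha2)
    exact ⟨u, hu, by rw [hw1 u (by omega)]; exact hne'⟩
  · by_contra hcon
    have hall : ∀ u, u < m → wd ((x, g) :: pre) u = h (pos up e (d - m + 1 + u)) := by
      intro u hu
      by_contra hne'
      exact hcon ⟨u, hu, hne'⟩
    obtain ⟨r, hr, hmr⟩ : ∃ r, 1 ≤ r ∧ m = x + 1 + r := ⟨m - (x + 1), by omega, by omega⟩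
    have hlenp : r ≤ len pre := by
      have : len ((x, g) :: pre) = x + 1 + len pre := rfl
      omega
    have hrest : ∀ u, u < r → wd pre u = h (pos up e (d - r + 1 + u)) := by
      intro u hu
      rw [← hw2 u, hall (x + 1 + u) (by omega)]
      congr 2
      omega
    have hprene : pre ≠ [] := by
      rintro rfl
      have : len ([] : Ctx) = 0 := rfl
      omega
    have hnot : (5 * K + 1 - c.length) * r < d * K := by
      by_contra hle
      obtain ⟨u, hu, hne'⟩ := hv pre e h rest hcp hprene up r d hr (by omega) hlenp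
        (not_lt.1 hle) hfit
      exact hne' (hrest u hu)
    obtain ⟨ha1, ha2⟩ := arith K c.length m d r (x + 1) hK hc (by omega) hmr hmd hdK
      (Or.inr hnot)
    obtain ⟨u, hu, hne'⟩ := hev e h hmem up (x + 1) (d - r) (by omega) le_rfl ha1 ha2
    apply hne'
    have e2 := hall u (by omega)
    rw [hw1 u (by omega)] at e2
    rw [e2]
    congr 2
    omega

end Pool.Agent.H54P
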