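import Pool.Agent.Lib.H54P.A3

set_option autoImplicit false

namespace Pool.Agent.H54P

/-- The step: a new heavy path below the context `c`.

Proof.  Apply `count` with `D = 2 * (K - 1) * (20 * K + 5)` and `F m` = the set of the words
`(List.range m).map (fun u => h (pos up e (δ - m + 1 + u)))` for `(e, h) ∈ c`, `up`,
`m ≤ δ ≤ (20 K + 5) m`, i.e. the image of `c.toFinset ×ˢ univ ×ˢ Finset.range ((20K+5) m)` (use
`δ = m + j`, `j < (20 K + 5) m`, restricted to `δ ≤ ..`, or index by positions of `c`: `Ctx` has no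
decidable equality, so use `classical` or `Fin c.length`); its card is at most
`(K - 1) * 2 * ((20 K + 5) m)`.  `5 + 4 D = 5 + 8 (K-1)(20K+5) ≤ 160 K ^ 2`.  Then `reduce`. -/
theorem step (n K : ℕ) (hK : 1 ≤ K) (c : Ctx) (hc : c.length + 1 ≤ K) (hv : Val n K c)
    (L : ℕ → Finset ℕ) (hL : ∀ i, i < n → 160 * K ^ 2 ≤ (L i).card) :
    ∃ g : ℕ → ℕ, (∀ i, i < n → g i ∈ L i) ∧ Spine n g ∧ ∀ x, x < n → Val n K ((x, g) :: c) := by
  sorry

end Pool.Agent.H54P
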