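import Pool.Agent.Lib.H54P.Def

set_option autoImplicit false

namespace Pool.Agent.H54P

/-- A vertex has only one parent. -/
theorem Par.unique {a b b' : Addr} (h : Par a b) (h' : Par a b') : b = b' := by
  rcases h with ⟨id, x, rfl, rfl⟩ | ⟨e, c, id, rfl, rfl⟩
  · rcases h' with ⟨id', x', h1, rfl⟩ | ⟨e', c', id', h1, rfl⟩
    · rw [Prod.mk.injEq] at h1
      obtain ⟨h2, h3⟩ := h1
      rw [h2, Nat.succ_injective h3]
    · rw [Prod.mk.injEq] at h1
      exact absurd h1.2 (Nat.succ_ne_zero x)
  · rcases h' with ⟨id', x', h1, rfl⟩ | ⟨e', c', id', h1, rfl⟩
    · rw [Prod.mk.injEq] at h1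
      exact absurd h1.2.symm (Nat.succ_ne_zero x')
    · rw [Prod.mk.injEq, List.cons.injEq, Prod.mk.injEq] at h1
      obtain ⟨⟨⟨h2, -⟩, h3⟩, -⟩ := h1
      rw [h2, h3]

theorem Par.ne {a b : Addr} (h : Par a b) : a ≠ b := by
  intro hab
  rcases h with ⟨id, x, rfl, rfl⟩ | ⟨e, c, id, rfl, rfl⟩
  · rw [Prod.mk.injEq] at hab
    exact absurd hab.2 (Nat.succ_ne_self x)
  · rw [Prod.mk.injEq] at hab
    have h1 := congrArg List.length hab.1
    rw [List.length_cons] at h1
    exact absurd h1 (Nat.succ_ne_self _)

/-- A path goes up and then down: `l = U ++ D`, `U` is not empty, every element of `U` but the last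
is followed by its parent, and from the last element `w` of `U` on every element is followed by a
child.

Proof.  Induction over `l`: once `x → y` goes down (`Par y x`) the next step cannot go up from `y`
(it would lead to the only parent `x` of `y`, which is already in the list). -/
theorem updown (l : List Addr) (hne : l ≠ []) (hc : l.IsChain (fun a b => Par a b ∨ Par b a))
    (hn : l.Nodup) :
    ∃ (U D : List Addr) (w : Addr), l = U ++ w :: D ∧ (U ++ [w]).IsChain Par ∧
      (w :: D).IsChain (fun a b => Par b a) := by
  induction l with
  | nil => exact absurd rfl hne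
  | cons a l ih =>
    cases l with
    | nil =>
      exact ⟨[], [], a, rfl, List.IsChain.singleton a, List.IsChain.singleton a⟩
    | cons b l =>
      rw [List.isChain_cons_cons] at hc
      rw [List.nodup_cons] at hn
      obtain ⟨U, D, w, h1, h2, h3⟩ := ih (List.cons_ne_nil _ _) hc.2 hn.2
      rcases hc.1 with h4 | h4
      · refine ⟨a :: U, D, w, by rw [h1]; rfl, ?_, h3⟩
        cases U with
        | nil =>
          rw [List.nil_append, List.cons.injEq] at h1
          rw [List.cons_append, List.nil_append, List.isChain_cons_cons]
          exact ⟨h1.1 ▸ h4, List.IsChain.singleton w⟩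
        | cons u U =>
          rw [List.cons_append, List.cons.injEq] at h1
          rw [List.cons_append, List.cons_append, List.isChain_cons_cons]
          exact ⟨h1.1 ▸ h4, h2⟩
      · cases U with
        | nil =>
          rw [List.nil_append] at h1
          refine ⟨[], b :: l, a, rfl, List.IsChain.singleton a, ?_⟩
          rw [List.isChain_cons_cons]
          exact ⟨h4, h1 ▸ h3⟩
        | cons u U =>
          exfalso
          rw [List.cons_append, List.cons.injEq] at h1
          obtain ⟨rfl, h6⟩ := h1
          cases U with
          | nil =>
            rw [List.cons_append, List.nil_append, List.isChain_cons_cons] at h2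
            have h7 := Par.unique h4 h2.1
            apply hn.1
            rw [h6, h7]
            simp
          | cons u' U =>
            rw [List.cons_append, List.cons_append, List.isChain_cons_cons] at h2
            have h7 := Par.unique h4 h2.1
            apply hn.1
            rw [h6, h7]
            simp

end Pool.Agent.H54P
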