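import Pool.Agent.Lib.H54P.Def

set_option autoImplicit false

namespace Pool.Agent.H54P

/-- `M e p id = [(id, e), (id, e-1), ..., (id, e+1-p)]`. -/
def M (id : List (ℕ × ℕ)) (e p : ℕ) : List Addr := (List.range p).map (fun v => (id, e - v))

theorem M_succ (id : List (ℕ × ℕ)) (e p : ℕ) : M id (e + 1) (p + 1) = (id, e + 1) :: M id e p := by
  unfold M
  rw [List.range_succ_eq_map]
  simp only [List.map_cons, List.map_map, Nat.sub_zero]
  congr 1
  refine List.map_congr_left fun v _ => ?_
  simp only [Function.comp]
  congr 1
  omega

theorem M_head (id : List (ℕ × ℕ)) (e p : ℕ) (hp : 1 ≤ p) : ∃ r, M id e p = (id, e) :: r := by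
  obtain ⟨q, rfl⟩ := Nat.exists_eq_add_of_le hp
  unfold M
  rw [Nat.add_comm, List.range_succ_eq_map]
  exact ⟨_, by simp only [List.map_cons, Nat.sub_zero]; rfl⟩

/-- Structure of an upward path `U ++ [w]`, `w = (id, i)`: it is `X ++ M` where `M` runs on the
heavy path `id` from the position `e` up to `i`, and `X` is empty or is attached at `(id, e)`: then
every element `X[j]` has an address whose context has the form `pre ++ (e, f id) :: cx f id`, where
`len pre = X.length - j` and the colours of `X[j], X[j+1], ...` are `wd pre 0, wd pre 1, ...`.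

Proof.  Induction over `U` (from its last element on, i.e. cons induction over `U ++ [w]`):
`U = []`: `X = []`, `p = 1`, `e = i`.  `U = a :: U'` with head `b` of `U' ++ [w]`, `Par a b`:
if `X' = []` then `b = (id, e')` and either `a = (id, e'+1)`: `X = []`, `e = e'+1`, `p = p'+1`; or
`a = ((e', c) :: id, 0)`: `X = [a]`, `e = e'`, `pre = [(0, f a.1)]`.  If `X' ≠ []`, `b = X'[0]` with
its `pre'`: either `b = (id', x)`, `a = (id', x+1)`: the context of `a` is that of `b` with head
position `x+1` (`pre = (x+1, f id') :: tail`), or `a = ((b.2, c) :: b.1, 0)` and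
`pre = (0, f a.1) :: pre'`.  In both cases `wd pre (u+1) = wd pre' u`, `wd pre 0` = colour of `a`,
`len pre = len pre' + 1`. -/
theorem up_struct (f : List (ℕ × ℕ) → ℕ → ℕ) (id : List (ℕ × ℕ)) (i : ℕ) (U : List Addr)
    (hU : (U ++ [((id, i) : Addr)]).IsChain Par) :
    ∃ (X : List Addr) (e p : ℕ), 1 ≤ p ∧ e + 1 = i + p ∧ U ++ [((id, i) : Addr)] = X ++ M id e p ∧
      (∀ j (hj : j < X.length), ∃ pre : Ctx, pre ≠ [] ∧ len pre = X.length - j ∧
        (((X[j]).2, f (X[j]).1) :: cx f (X[j]).1 : Ctx) = pre ++ (e, f id) :: cx f id ∧
        ∀ u, u < X.length - j → wd pre u = (X.map (fun a => f a.1 a.2)).getD (j + u) 0) := by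
  induction U with
  | nil => exact ⟨[], i, 1, le_rfl, rfl, by simp [M], fun j hj => absurd hj (by simp)⟩
  | cons a U' ih =>
    rw [List.cons_append] at hU
    have hU' := List.IsChain.tail hU
    rw [List.tail_cons] at hU'
    obtain ⟨X', e, p, hp, he, hX, hs⟩ := ih hU'
    rw [hX] at hU
    rcases X' with _ | ⟨b, X''⟩
    · rw [List.nil_append] at hU hX
      obtain ⟨r, hr⟩ := M_head id e p hp
      have hpar : Par a (id, e) := by
        rw [hr] at hU
        exact (List.isChain_cons_cons.1 hU).1
      rcases hpar with ⟨id0, x, rfl, h2⟩ | ⟨e0, c, id0, rfl, h2⟩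
      · obtain ⟨rfl, rfl⟩ := Prod.mk.inj h2
        refine ⟨[], e + 1, p + 1, by omega, by omega, ?_, fun j hj => absurd hj (by simp)⟩
        rw [List.cons_append, hX, M_succ]
        rfl
      · obtain ⟨rfl, rfl⟩ := Prod.mk.inj h2
        refine ⟨[((e, c) :: id, 0)], e, p, hp, he, ?_, fun j hj => ?_⟩
        · rw [List.cons_append, hX]
          rfl
        · have hj0 : j = 0 := by simpa using hj
          subst hj0
          refine ⟨[(0, f ((e, c) :: id))], by simp, by simp [len], by simp [cx], fun u hu => ?_⟩
          have hu0 : u = 0 := by simpa using hu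
          subst hu0
          simp [wd]
    · have hpar : Par a b := by
        rw [List.cons_append] at hU
        exact (List.isChain_cons_cons.1 hU).1
      refine ⟨a :: b :: X'', e, p, hp, he, by rw [List.cons_append, hX]; rfl, fun j hj => ?_⟩
      rcases j with _ | k
      · obtain ⟨pre, h1, h2, h3, h4⟩ := hs 0 (by simp)
        simp only [List.getElem_cons_zero] at h3 ⊢
        rcases pre with _ | ⟨q, t⟩
        · exact absurd rfl h1
        rw [List.cons_append] at h3
        obtain ⟨h5, h6⟩ := List.cons_eq_cons.1 h3
        subst h5
        rcases hpar with ⟨id0, x, rfl, rfl⟩ | ⟨e0, c, id0, rfl, rfl⟩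
        · refine ⟨(x + 1, f id0) :: t, by simp, ?_, ?_, fun u hu => ?_⟩
          · simp only [len, List.length_cons] at h2 ⊢
            omega
          · simp only [List.cons_append]
            rw [← h6]
          · rcases u with _ | v
            · simp [wd]
            · have h7 := h4 v (by simp only [List.length_cons] at hu ⊢; omega)
              have h8 : 0 + (v + 1) = (0 + v) + 1 := by omega
              rw [h8, List.map_cons, List.getD_cons_succ, ← h7]
              simp only [wd]
              by_cases hv : v ≤ x
              · rw [if_pos (by omega), if_pos hv]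
                congr 1
                omega
              · rw [if_neg (by omega), if_neg hv]
                congr 1
                omega
        · refine ⟨(0, f ((e0, c) :: id0)) :: (e0, f id0) :: t, by simp, ?_, ?_, fun u hu => ?_⟩
          · simp only [len, List.length_cons] at h2 ⊢
            omega
          · simp only [cx, List.cons_append]
            rw [← h6]
          · rcases u with _ | v
            · simp [wd]
            · have h7 := h4 v (by simp only [List.length_cons] at hu ⊢; omega)
              have h8 : 0 + (v + 1) = (0 + v) + 1 := by omega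
              rw [h8, List.map_cons, List.getD_cons_succ, ← h7]
              rw [wd, if_neg (by omega)]
              congr 1
      · obtain ⟨pre, h1, h2, h3, h4⟩ := hs k (by simpa using hj)
        refine ⟨pre, h1, ?_, ?_, fun u hu => ?_⟩
        · rw [h2]
          simp only [List.length_cons]
          omega
        · simpa using h3
        · have h7 := h4 u (by simp only [List.length_cons] at hu ⊢; omega)
          have h8 : k + 1 + u = (k + u) + 1 := by omega
          rw [h8, List.map_cons, List.getD_cons_succ, h7]

end Pool.Agent.H54P
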