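import Pool.Agent.Lib.H54P.A2
import Pool.Agent.Lib.H54P.A5
import Pool.Agent.Lib.H54P.A6

set_option autoImplicit false

namespace Pool.Agent.H54P

private theorem a7_mem_M {id : List (ℕ × ℕ)} {e p i : ℕ} (hp : 2 ≤ p) (he : e + 1 = i + p) :
    ((id, i + 1) : Addr) ∈ M id e p := by
  rw [M, List.mem_map]
  refine ⟨p - 2, List.mem_range.2 (by omega), ?_⟩
  rw [Prod.mk.injEq]
  exact ⟨rfl, by omega⟩

private theorem a7_M_one {id : List (ℕ × ℕ)} {e i : ℕ} (he : e + 1 = i + 1) :
    M id e 1 = [((id, i) : Addr)] := by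
  have h : e = i := by omega
  rw [h, M]
  rfl

/-- Structure of a path in the universal tree: up to reversal `l = X ++ M id e p ++ Y` where `X`
hangs from `(id, e)` (or is empty) and `Y.reverse` hangs from `(id, e + 1 - p)` (or is empty).

Proof.  `updown`: `l = U ++ w :: D`, `w = (id, i)`.  `up_struct` for `U` gives `X, e, p`;
`up_struct` for `D.reverse` (`(D.reverse ++ [w]).IsChain Par` by reversing the chain) gives
`X', e', p'`, `e' + 1 = i + p'`.  If `p ≥ 2` and `p' ≥ 2` both contain `(id, i+1)`: contradiction to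
`Nodup`.  If `p' = 1`: `D.reverse = X'`, `l = X ++ M id e p ++ X'.reverse`.  If `p = 1`:
`U = X`, `l.reverse = (D.reverse ++ [w]) ++ U.reverse = X' ++ M id e' p' ++ X.reverse`. -/
theorem path_struct (f : List (ℕ × ℕ) → ℕ → ℕ) (l : List Addr) (hne : l ≠ [])
    (hc : l.IsChain (fun a b => Par a b ∨ Par b a)) (hn : l.Nodup) :
    ∃ (X Y : List Addr) (id : List (ℕ × ℕ)) (e p : ℕ), 1 ≤ p ∧ p ≤ e + 1 ∧
      (l = X ++ M id e p ++ Y.reverse ∨ l.reverse = X ++ M id e p ++ Y.reverse) ∧
      (∀ j (hj : j < X.length), ∃ pre : Ctx, pre ≠ [] ∧ len pre = X.length - j ∧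
        (((X[j]).2, f (X[j]).1) :: cx f (X[j]).1 : Ctx) = pre ++ (e, f id) :: cx f id ∧
        ∀ u, u < X.length - j → wd pre u = (X.map (fun a => f a.1 a.2)).getD (j + u) 0) ∧
      (∀ j (hj : j < Y.length), ∃ pre : Ctx, pre ≠ [] ∧ len pre = Y.length - j ∧
        (((Y[j]).2, f (Y[j]).1) :: cx f (Y[j]).1 : Ctx) =
          pre ++ (e + 1 - p, f id) :: cx f id ∧
        ∀ u, u < Y.length - j → wd pre u = (Y.map (fun a => f a.1 a.2)).getD (j + u) 0) := by
  obtain ⟨U, D, w, hl, hU, hD⟩ := updown l hne hc hn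
  obtain ⟨id, i⟩ := w
  obtain ⟨X, e, p, hp1, hep, hX, hPX⟩ := up_struct f id i U hU
  have hDr : (D.reverse ++ [((id, i) : Addr)]).IsChain Par := by
    have h1 : (D.reverse ++ [((id, i) : Addr)]) = (((id, i) : Addr) :: D).reverse := by
      rw [List.reverse_cons]
    rw [h1, List.isChain_reverse]
    exact hD
  obtain ⟨X', e', p', hp1', hep', hX', hPX'⟩ := up_struct f id i D.reverse hDr
  by_cases hp' : p' = 1
  · subst hp'
    rw [a7_M_one hep'] at hX'
    have hDX : D.reverse = X' := (List.append_inj_left' hX' rfl)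
    have hei : e + 1 - p = e' := by omega
    refine ⟨X, X', id, e, p, hp1, by omega, Or.inl ?_, hPX, ?_⟩
    · rw [← hX, ← hDX, List.reverse_reverse, hl]
      simp
    · rw [hei]
      exact hPX'
  · by_cases hp : p = 1
    · subst hp
      rw [a7_M_one hep] at hX
      have hUX : U = X := (List.append_inj_left' hX rfl)
      have hei : e' + 1 - p' = e := by omega
      refine ⟨X', X, id, e', p', hp1', by omega, Or.inr ?_, hPX', ?_⟩
      · rw [← hX', ← hUX, hl]
        simp
      · rw [hei]
        exact hPX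
    · exfalso
      have hne : ((id, i + 1) : Addr) ≠ (id, i) := by
        intro h
        rw [Prod.mk.injEq] at h
        exact absurd h.2 (Nat.succ_ne_self i)
      have h1 : ((id, i + 1) : Addr) ∈ U := by
        have h2 : ((id, i + 1) : Addr) ∈ U ++ [((id, i) : Addr)] := by
          rw [hX]
          exact List.mem_append_right _ (a7_mem_M (by omega) hep)
        rcases List.mem_append.1 h2 with h3 | h3
        · exact h3
        · exact absurd (List.mem_singleton.1 h3) hne
      have h2 : ((id, i + 1) : Addr) ∈ D := by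
        have h3 : ((id, i + 1) : Addr) ∈ D.reverse ++ [((id, i) : Addr)] := by
          rw [hX']
          exact List.mem_append_right _ (a7_mem_M (by omega) hep')
        rcases List.mem_append.1 h3 with h4 | h4
        · exact List.mem_reverse.1 h4
        · exact absurd (List.mem_singleton.1 h4) hne
      rw [hl] at hn
      have h3 := (List.nodup_append.1 hn).2.2
      exact h3 _ h1 _ (List.mem_cons_of_mem _ h2) rfl

end Pool.Agent.H54P
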