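import Pool.Agent.Lib.H54P.A7

set_option autoImplicit false

namespace Pool.Agent.H54P

private theorem cx_length (f : List (ℕ × ℕ) → ℕ → ℕ) (id : List (ℕ × ℕ)) :
    (cx f id).length = id.length := by
  induction id with
  | nil => rfl
  | cons q id ih => simp [cx, ih]

private theorem bound {d m K L : ℕ} (h4 : d ≤ 4 * m) (hL : L ≤ K) :
    d * K ≤ (5 * K + 1 - L) * m := by
  have h1 : 4 * K ≤ 5 * K + 1 - L := by omega
  calc d * K ≤ 4 * m * K := Nat.mul_le_mul_right K h4
    _ = 4 * K * m := by ring
    _ ≤ (5 * K + 1 - L) * m := Nat.mul_le_mul_right m h1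

/-- The contradiction for the list `X ++ M id e p ++ Y.reverse`. -/
private theorem core (n K : ℕ) (f : List (ℕ × ℕ) → ℕ → ℕ) (hf : Good n K f) (X Y : List Addr)
    (id : List (ℕ × ℕ)) (e p : ℕ) (hp : 1 ≤ p) (hpe : p ≤ e + 1)
    (hok : ∀ a ∈ X ++ M id e p ++ Y.reverse, Ok n K a)
    (hX : ∀ j (hj : j < X.length), ∃ pre : Ctx, pre ≠ [] ∧ len pre = X.length - j ∧
        (((X[j]).2, f (X[j]).1) :: cx f (X[j]).1 : Ctx) = pre ++ (e, f id) :: cx f id ∧
        ∀ u, u < X.length - j → wd pre u = (X.map (fun a => f a.1 a.2)).getD (j + u) 0)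
    (hY : ∀ j (hj : j < Y.length), ∃ pre : Ctx, pre ≠ [] ∧ len pre = Y.length - j ∧
        (((Y[j]).2, f (Y[j]).1) :: cx f (Y[j]).1 : Ctx) =
          pre ++ (e + 1 - p, f id) :: cx f id ∧
        ∀ u, u < Y.length - j → wd pre u = (Y.map (fun a => f a.1 a.2)).getD (j + u) 0)
    (a : List ℕ) (ha : a ≠ [])
    (h : (X ++ M id e p ++ Y.reverse).map (fun b => f b.1 b.2) = a ++ a) : False := by
  have hMe : (id, e) ∈ X ++ M id e p ++ Y.reverse := by
    have h1 : (id, e) ∈ M id e p := by
      rw [M, List.mem_map]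
      exact ⟨0, List.mem_range.2 hp, by simp⟩
    simp [h1]
  have hoke := hok _ hMe
  have hmap : (X.map (fun b : Addr => f b.1 b.2)) ++ (List.range p).map (fun v => f id (e - v)) ++
      (Y.reverse.map (fun b : Addr => f b.1 b.2)) = a ++ a := by
    rw [← h, List.map_append, List.map_append, M, List.map_map]
    rfl
  have hYrev : (Y.reverse.map (fun b : Addr => f b.1 b.2)).reverse =
      Y.map (fun b : Addr => f b.1 b.2) := by
    rw [List.map_reverse, List.reverse_reverse]
  rcases word (fun v => f id (e - v)) p hp _ _ a ha hmap with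
    ⟨k, m, d, h1, h2, h3, h4, h5, h6⟩ | ⟨k, m, d, h1, h2, h3, h4, h5, h6⟩ | ⟨t, i, h1, h2, h3⟩
  · rw [List.length_map] at h5
    have hk : k < X.length := by omega
    obtain ⟨pre, g1, g2, g3, g4⟩ := hX k hk
    have hmem : X[k] ∈ X ++ M id e p ++ Y.reverse := by
      simp [List.getElem_mem hk]
    obtain ⟨o1, o2, o3⟩ := hok _ hmem
    have hv := (hf (X[k]).1 o1 o2).2 (X[k]).2 o3
    have hlen : (pre ++ (e, f id) :: cx f id).length ≤ K := by
      rw [← g3, List.length_cons, cx_length]
      exact o1
    rw [g3] at hv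
    obtain ⟨u, hu1, hu2⟩ := hv pre e (f id) (cx f id) rfl g1 true m d h1 h2 (by omega)
      (bound h3 hlen) (by simp only [Fits, if_true]; omega)
    apply hu2
    rw [g4 u (by omega), h6 u hu1]
    have e1 : e - (d - m + u) = pos true e (d - m + 1 + u) := by
      simp only [pos, if_true]
      omega
    simp only [e1]
  · rw [List.length_map, List.length_reverse] at h5
    have hk : k < Y.length := by omega
    obtain ⟨pre, g1, g2, g3, g4⟩ := hY k hk
    have hmem : Y[k] ∈ X ++ M id e p ++ Y.reverse := by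
      simp [List.getElem_mem hk]
    obtain ⟨o1, o2, o3⟩ := hok _ hmem
    have hv := (hf (Y[k]).1 o1 o2).2 (Y[k]).2 o3
    have hlen : (pre ++ (e + 1 - p, f id) :: cx f id).length ≤ K := by
      rw [← g3, List.length_cons, cx_length]
      exact o1
    have hen : e < n := hoke.2.2
    rw [g3] at hv
    obtain ⟨u, hu1, hu2⟩ := hv pre (e + 1 - p) (f id) (cx f id) rfl g1 false m d h1 h2 (by omega)
      (bound h3 hlen) (by simp only [Fits, Bool.false_eq_true, if_false]; omega)
    apply hu2
    have h7 := h6 u hu1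
    rw [hYrev] at h7
    rw [g4 u (by omega), h7]
    have e1 : e - (p - 1 - (d - m + u)) = pos false (e + 1 - p) (d - m + 1 + u) := by
      simp only [pos, Bool.false_eq_true, if_false]
      omega
    simp only [e1]
  · obtain ⟨o1, o2, o3⟩ := hoke
    have hs := (hf id o1 o2).1
    simp only at o3
    obtain ⟨u, hu1, hu2⟩ := hs t h1 (e + 1 - i - t - T t) (by omega)
    apply hu2
    have h7 := h3 (T t - 1 - u) (by omega)
    have e1 : e - (i + (T t - 1 - u) + t) = e + 1 - i - t - T t + u := by omega
    have e2 : e - (i + (T t - 1 - u)) = e + 1 - i - t - T t + u + t := by omega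
    simp only [e1, e2] at h7
    exact h7.symm

/-- No repetition in the universal tree.

Proof.  If `l.map c = a ++ a` then also `l.reverse.map c = a.reverse ++ a.reverse`; so by
`path_struct` the word of `X ++ M id e p ++ Y.reverse` is a square.  The word of `M id e p` is
`(List.range p).map g`, `g v = f id (e - v)`.  Apply `word` with `xs` = colours of `X`, `ys` =
colours of `Y.reverse` (`ys.reverse` = colours of `Y`).
(1) first alternative `(k, m, d)`: with `pre` for `X[k]`: `wd pre u = g (d-m+u)
= f id (e - (d-m+u)) = f id (pos true e (d-m+1+u))` for `u < m`; `Fits n true e d` since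
`d ≤ p ≤ e + 1`; `d K ≤ 4 m K ≤ (5 K + 1 - length) m` since the context has length `≤ K`
(`cx f id` has length `id.length`, `Ok`).  Contradiction to `Val` (from `Good` at the address
`X[k]`, which is `Ok` because it is in `l`).
(2) second alternative: with `pre` for `Y[k]`: `wd pre u = g (p-1-(d-m+u)) =
f id (e - (p-1-(d-m+u))) = f id (pos false (e+1-p) (d-m+1+u))`; `Fits n false (e+1-p) d`:
`e + 1 - p + d ≤ e + 1 ≤ n` (`(id, e)` is in `l`, so `e < n`).
(3) third alternative `(t, i)`: the match read backwards is a match in `f id` from the position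
`e + 1 - i - t - T t`: contradiction to `Spine n (f id)`. -/
theorem nonrep (n K : ℕ) (f : List (ℕ × ℕ) → ℕ → ℕ) (hf : Good n K f) (l : List Addr)
    (hok : ∀ a ∈ l, Ok n K a) (hc : l.IsChain (fun a b => Par a b ∨ Par b a)) (hn : l.Nodup)
    (a : List ℕ) (ha : a ≠ []) : l.map (fun b => f b.1 b.2) ≠ a ++ a := by
  intro h
  have hne : l ≠ [] := by
    rintro rfl
    rw [List.map_nil] at h
    have h1 := congrArg List.length h
    rw [List.length_nil, List.length_append] at h1
    exact ha (List.length_eq_zero_iff.1 (by omega))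
  obtain ⟨X, Y, id, e, p, hp, hpe, hl, hX, hY⟩ := path_struct f l hne hc hn
  rcases hl with hl | hl
  · exact core n K f hf X Y id e p hp hpe (fun b hb => hok b (by rw [hl]; exact hb)) hX hY a ha
      (by rw [← hl]; exact h)
  · refine core n K f hf X Y id e p hp hpe (fun b hb => hok b ?_) hX hY a.reverse
      (fun h0 => ha (List.reverse_eq_nil_iff.1 h0)) ?_
    · rw [← hl] at hb
      exact List.mem_reverse.1 hb
    · rw [← hl, List.map_reverse, h, List.reverse_append]

end Pool.Agent.H54P
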