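import Mathlib

set_option autoImplicit false

namespace Pool.Agent.H54P

/-- Covering lemma.  `par` = parent; `[l v, r v]` = interval of `v`; the intervals of a vertex and
of its parent intersect.

Proof.  If `i ≤ r s` take `w = s`.  Otherwise `r s < i`; suppose no `w` as claimed.  By induction
on `j ≤ a`: `r (par^[j] s) < i` (the interval of the parent meets `[.., r (par^[j] s)]`, so its
left end is `< i`, and it does not contain `i`).  So `r v < i`.  By downward induction on `j ≤ b`:
`r (par^[j] t) < i` in the same way, so `r t < i`: contradiction. -/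
theorem cover {V : Type} (par : V → V) (l r : V → ℕ)
    (hI : ∀ v, l v ≤ r (par v) ∧ l (par v) ≤ r v) (s t v : V) (a b : ℕ)
    (hs : par^[a] s = v) (ht : par^[b] t = v) (i : ℕ) (h1 : l s ≤ i) (h2 : i ≤ r t) :
    ∃ w, l w ≤ i ∧ i ≤ r w ∧ ((∃ j, j ≤ a ∧ w = par^[j] s) ∨ (∃ j, j ≤ b ∧ w = par^[j] t)) := by
  by_contra hno
  have hA : ∀ j, j ≤ a → l (par^[j] s) ≤ i → r (par^[j] s) < i := by
    intro j hj hl
    by_contra hr
    exact hno ⟨_, hl, not_lt.1 hr, Or.inl ⟨j, hj, rfl⟩⟩
  have hB : ∀ j, j ≤ b → l (par^[j] t) ≤ i → r (par^[j] t) < i := by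
    intro j hj hl
    by_contra hr
    exact hno ⟨_, hl, not_lt.1 hr, Or.inr ⟨j, hj, rfl⟩⟩
  have h3 : ∀ j, j ≤ a → r (par^[j] s) < i := by
    intro j
    induction j with
    | zero => intro hj; exact hA 0 hj h1
    | succ j ih =>
      intro hj
      have h4 := ih (by omega)
      refine hA (j + 1) hj ?_
      rw [Function.iterate_succ_apply']
      exact ((hI (par^[j] s)).2.trans h4.le)
  have hv : r v < i := hs ▸ h3 a le_rfl
  have h5 : ∀ m j, j + m = b → r (par^[j] t) < i := by
    intro m
    induction m with
    | zero =>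
      intro j hj
      have : j = b := by omega
      rw [this, ht]
      exact hv
    | succ m ih =>
      intro j hj
      have h4 := ih (j + 1) (by omega)
      rw [Function.iterate_succ_apply'] at h4
      exact hB j (by omega) ((hI (par^[j] t)).1.trans h4.le)
  have h6 := h5 b 0 (by omega)
  have h7 : r t < i := h6
  omega

end Pool.Agent.H54P
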