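import Mathlib

set_option autoImplicit false

namespace Pool.Agent.H54P

/-- `u` is a descendant of `v` (or `u = v`). -/
def Desc {V : Type} (par : V → V) (v u : V) : Prop := ∃ k, par^[k] u = v

theorem Desc.refl {V : Type} (par : V → V) (v : V) : Desc par v v := ⟨0, rfl⟩

theorem Desc.trans {V : Type} {par : V → V} {a b c : V} (h : Desc par a b) (h' : Desc par b c) :
    Desc par a c := by
  obtain ⟨k, hk⟩ := h
  obtain ⟨l, hl⟩ := h'
  exact ⟨k + l, by rw [Function.iterate_add_apply, hl, hk]⟩

/-- If `u` is a descendant of `v` and `w`, then `v` is a descendant of `w` or conversely. -/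
theorem Desc.total {V : Type} {par : V → V} {v w u : V} (h : Desc par v u) (h' : Desc par w u) :
    Desc par v w ∨ Desc par w v := by
  obtain ⟨k, hk⟩ := h
  obtain ⟨l, hl⟩ := h'
  rcases le_total k l with hkl | hkl
  · right
    obtain ⟨j, rfl⟩ := Nat.exists_eq_add_of_le hkl
    exact ⟨j, by rw [← hk, ← Function.iterate_add_apply, Nat.add_comm j k, hl]⟩
  · left
    obtain ⟨j, rfl⟩ := Nat.exists_eq_add_of_le hkl
    exact ⟨j, by rw [← hl, ← Function.iterate_add_apply, Nat.add_comm j l, hk]⟩

/-- If `u ≠ v` is a descendant of `v`, so is its parent. -/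
theorem Desc.par_mem {V : Type} {par : V → V} {v u : V} (h : Desc par v u) (hne : u ≠ v) :
    Desc par v (par u) := by
  obtain ⟨k, hk⟩ := h
  cases k with
  | zero => exact absurd hk hne
  | succ j => exact ⟨j, by rw [← hk, Function.iterate_succ_apply]⟩

private theorem fix_iter {V : Type} {par : V → V} {z : V} (hz : par z = z) (k : ℕ) :
    par^[k] z = z := Function.iterate_fixed hz k

/-- Two different vertices are not descendants of each other. -/
theorem Desc.antisymm {V : Type} {par : V → V} {z : V} (hz : par z = z)
    (hroot : ∀ v, ∃ k, par^[k] v = z) {a b : V} (h : Desc par a b) (h' : Desc par b a) :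
    a = b := by
  obtain ⟨k, hk⟩ := h
  obtain ⟨l, hl⟩ := h'
  obtain ⟨m, hm⟩ := hroot b
  have hper : par^[l + k] b = b := by rw [Function.iterate_add_apply, hk, hl]
  rcases Nat.eq_zero_or_pos (l + k) with h0 | h0
  · have hk0 : k = 0 := by omega
    rw [hk0] at hk
    exact hk.symm
  · have hbig : par^[(l + k) * m] b = b := by
      rw [Function.iterate_mul]
      exact Function.iterate_fixed hper m
    obtain ⟨j, hj⟩ := Nat.exists_eq_add_of_le (Nat.le_mul_of_pos_left m h0)
    have hbz : b = z := by
      rw [← hbig, hj, Nat.add_comm m j, Function.iterate_add_apply, hm]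
      exact fix_iter hz j
    rw [← hk, hbz, fix_iter hz k]

/-- A child of `x` which is an ancestor of `s` is unique. -/
theorem child_unique {V : Type} {par : V → V} {z : V} (hz : par z = z)
    (hroot : ∀ v, ∃ k, par^[k] v = z) {x u u' s : V} (hu : u ≠ z) (hu' : u' ≠ z)
    (hp : par u = x) (hp' : par u' = x) (h : Desc par u s) (h' : Desc par u' s) : u = u' := by
  have key : ∀ a b : V, a ≠ z → par a = x → par b = x → Desc par a b → a = b := by
    intro a b ha hpa hpb hab
    by_contra hne
    have h1 : Desc par a (par b) := Desc.par_mem hab (fun e => hne e.symm)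
    rw [hpb] at h1
    have h2 : Desc par x a := ⟨1, hpa⟩
    have h3 : a = x := Desc.antisymm hz hroot h1 h2
    obtain ⟨m, hm⟩ := hroot a
    apply ha
    rw [← hm]
    exact (Function.iterate_fixed (hpa.trans h3.symm) m).symm
  rcases Desc.total h h' with h1 | h1
  · exact key u u' hu hp hp' h1
  · exact (key u' u hu' hp' hp h1).symm

end Pool.Agent.H54P
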