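import Pool.Agent.Lib.H54P.B1
import Pool.Agent.Lib.H54P.B2

set_option autoImplicit false

namespace Pool.Agent.H54P

/-- Removing the ancestors of `s` (least left end) and `t` (greatest right end) in the subtree at
`v`: the subtree at a vertex `u0` which is not an ancestor of `s` or `t` has a smaller width.

Proof.  Let `i` be an index.  If no descendant of `u0` contains `i` the number is 0.  Otherwise
some descendant `y` of `u0` has `l y ≤ i ≤ r y`, so `l s ≤ l y ≤ i ≤ r y ≤ r t` and `cover` gives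
`w` on one of the two chains from `s`, `t` up to `v` with `i` in its interval; `w` is a descendant
of `v` and an ancestor of `s` or `t`, so not a descendant of `u0` (otherwise `u0` would be an
ancestor of `s` or `t`).  So the set for `u0` together with `w` is contained in the set for `v`. -/
theorem width_lt {V : Type} [Fintype V] [DecidableEq V] (par : V → V) (l r : V → ℕ)
    (hI : ∀ v, l v ≤ r (par v) ∧ l (par v) ≤ r v) (b : ℕ) (v s t u0 : V)
    (hw : ∀ i, {u | Desc par v u ∧ l u ≤ i ∧ i ≤ r u}.ncard ≤ b + 1)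
    (hs : Desc par v s) (ht : Desc par v t) (hmin : ∀ u, Desc par v u → l s ≤ l u)
    (hmax : ∀ u, Desc par v u → r u ≤ r t) (h0 : Desc par v u0) (h0s : ¬ Desc par u0 s)
    (h0t : ¬ Desc par u0 t) :
    ∀ i, {u | Desc par u0 u ∧ l u ≤ i ∧ i ≤ r u}.ncard ≤ b := by
  intro i
  by_cases hne : ∃ y, Desc par u0 y ∧ l y ≤ i ∧ i ≤ r y
  · obtain ⟨y, hy, hy1, hy2⟩ := hne
    have hvy : Desc par v y := Desc.trans h0 hy
    obtain ⟨a, ha⟩ := hs
    obtain ⟨c, hc⟩ := ht
    obtain ⟨w, hw1, hw2, hw3⟩ := cover par l r hI s t v a c ha hc i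
      ((hmin y hvy).trans hy1) (hy2.trans (hmax y hvy))
    have hvw : Desc par v w := by
      rcases hw3 with ⟨j, hj, rfl⟩ | ⟨j, hj, rfl⟩
      · exact ⟨a - j, by rw [← Function.iterate_add_apply, Nat.sub_add_cancel hj, ha]⟩
      · exact ⟨c - j, by rw [← Function.iterate_add_apply, Nat.sub_add_cancel hj, hc]⟩
    have hnw : ¬ Desc par u0 w := by
      intro h
      rcases hw3 with ⟨j, hj, rfl⟩ | ⟨j, hj, rfl⟩
      · exact h0s (Desc.trans h ⟨j, rfl⟩)
      · exact h0t (Desc.trans h ⟨j, rfl⟩)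
    have hsub : insert w {u | Desc par u0 u ∧ l u ≤ i ∧ i ≤ r u} ⊆
        {u | Desc par v u ∧ l u ≤ i ∧ i ≤ r u} := by
      intro u hu
      rcases hu with rfl | ⟨hu1, hu2, hu3⟩
      · exact ⟨hvw, hw1, hw2⟩
      · exact ⟨Desc.trans h0 hu1, hu2, hu3⟩
    have h1 := Set.ncard_le_ncard hsub (Set.toFinite _)
    rw [Set.ncard_insert_of_notMem (fun h => hnw h.1) (Set.toFinite _)] at h1
    have h2 := hw i
    omega
  · have : {u | Desc par u0 u ∧ l u ≤ i ∧ i ≤ r u} = ∅ := by
      ext u
      simp only [Set.mem_ofPred_eq, Set.mem_empty_iff_false, iff_false]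
      exact fun h => hne ⟨u, h⟩
    rw [this, Set.ncard_empty]
    exact Nat.zero_le _

end Pool.Agent.H54P
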