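import Pool.Agent.Lib.H54P.B2b

set_option autoImplicit false

namespace Pool.Agent.H54P

private theorem b3_desc_par {V : Type} {par : V → V} {w s : V} (h : Desc par w s) :
    Desc par (par w) s := by
  obtain ⟨k, hk⟩ := h
  exact ⟨k + 1, by rw [Function.iterate_succ_apply', hk]⟩

private theorem b3_ne_root {V : Type} {par : V → V} {z v u : V} (hz : par z = z)
    (h : Desc par v u) (hne : u ≠ v) : u ≠ z := by
  rintro rfl
  obtain ⟨k, hk⟩ := h
  rw [Function.iterate_fixed hz] at hk
  exact hne hk

private theorem b3_not_self {V : Type} {par : V → V} {v u : V} (h : Desc par v u) (hne : u ≠ v) :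
    par u ≠ u := by
  intro h2
  obtain ⟨k, hk⟩ := h
  rw [Function.iterate_fixed h2] at hk
  exact hne hk

private theorem b3_up {V : Type} {par : V → V} {P : V → Prop} (hP : ∀ w, P w → P (par w)) (u : V) :
    ∀ (d a : ℕ), P (par^[a] u) → P (par^[a + d] u)
  | 0, a, h => h
  | d + 1, a, h => by
    have h2 := hP _ (b3_up hP u d a h)
    rw [← Function.iterate_succ_apply' par (a + d) u] at h2
    exact h2

/-- The topmost vertex without `P` above `u`. -/
private noncomputable def b3_top {V : Type} (par : V → V) (P : V → Prop) (u : V) : V :=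
  par^[sInf {j | P (par^[j + 1] u)}] u

private theorem b3_top_eq {V : Type} {par : V → V} {P : V → Prop} (hP : ∀ w, P w → P (par w))
    {u : V} {a : ℕ} (h1 : ¬ P (par^[a] u)) (h2 : P (par^[a + 1] u)) :
    b3_top par P u = par^[a] u := by
  have h3 : sInf {j | P (par^[j + 1] u)} = a := by
    apply le_antisymm
    · exact Nat.sInf_le h2
    · by_contra hlt
      push Not at hlt
      have hne : {j | P (par^[j + 1] u)}.Nonempty := ⟨a, h2⟩
      have h4 : P (par^[sInf {j | P (par^[j + 1] u)} + 1] u) := Nat.sInf_mem hne
      obtain ⟨d, hd⟩ := Nat.exists_eq_add_of_lt hlt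
      have h5 := b3_up hP u d _ h4
      apply h1
      have h6 : sInf {j | P (par^[j + 1] u)} + 1 + d = a := by omega
      rw [h6] at h5
      exact h5
  unfold b3_top
  rw [h3]

private theorem b3_exists {V : Type} {par : V → V} {P : V → Prop} {u : V} (h0 : ¬ P u) {k : ℕ}
    (hk : P (par^[k] u)) : ∃ a, ¬ P (par^[a] u) ∧ P (par^[a + 1] u) := by
  induction k with
  | zero => exact absurd hk h0
  | succ k ih =>
    by_cases h : P (par^[k] u)
    · exact ih h
    · exact ⟨k, h, hk⟩

/-- Labels.

Proof.  Induction over `b`.  `b = 0`: `Desc par v v` and `i = l v` contradict the width bound.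
`b + 1`: let `s` (`t`) be a descendant of `v` with the least `l` (greatest `r`)
(`Set.exists_min_image` / finite).  For a descendant `u` of `v` which is not an ancestor of `s` or
`t` let `top u` be the topmost ancestor-or-self of `u` below `v` with this property (its parent is
an ancestor of `s` or `t`): `top u = par^[k] u` with `k` the greatest such that `par^[k] u` is
no ancestor of `s` or `t` (`v` itself is an ancestor of `s`; being an ancestor of s or t is closed upwards
inside the subtree of `v`).  By `width_lt` and the induction hypothesis every such top vertex `u0`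
has labels `lev' u0 : V → ℕ` (choose).  Put `lev u = 0` for ancestors of `s`, `1` for other
ancestors of `t`, and `lev u = lev' (top u) u + 2` otherwise.  All three properties are immediate:
`lev < 2 b + 2`; monotone: if `par u` is an ancestor of `s` / `t` clear, otherwise
`top (par u) = top u`; unique child with the same label: labels 0 and 1 by `child_unique`
(a child `u` with label 0 is an ancestor of `s`, a child `u` with label 1 is an ancestor of `t`),
labels `≥ 2`: `u`, `u'` and the common parent have the same `top`, use `lev'`. -/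
theorem labels {V : Type} [Fintype V] [DecidableEq V] (par : V → V) (z : V) (hz : par z = z)
    (hroot : ∀ v, ∃ k, par^[k] v = z) (l r : V → ℕ) (hlr : ∀ v, l v ≤ r v)
    (hI : ∀ v, l v ≤ r (par v) ∧ l (par v) ≤ r v) :
    ∀ (b : ℕ) (v : V), (∀ i, {u | Desc par v u ∧ l u ≤ i ∧ i ≤ r u}.ncard ≤ b) →
      ∃ lev : V → ℕ, (∀ u, Desc par v u → lev u < 2 * b) ∧
        (∀ u, Desc par v u → u ≠ v → lev (par u) ≤ lev u) ∧
        (∀ u u', Desc par v u → Desc par v u' → u ≠ v → u' ≠ v → par u = par u' →
          lev u = lev (par u) → lev u' = lev (par u') → u = u') := by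
  intro b
  induction b with
  | zero =>
    intro v hv
    exfalso
    have h := hv (l v)
    have hmem : v ∈ {u | Desc par v u ∧ l u ≤ l v ∧ l v ≤ r u} := ⟨Desc.refl par v, le_rfl, hlr v⟩
    have hpos := (Set.ncard_pos (Set.toFinite _)).2 ⟨v, hmem⟩
    omega
  | succ b ih =>
    intro v hv
    classical
    have hne : (Finset.univ.filter fun u => Desc par v u).Nonempty :=
      ⟨v, by rw [Finset.mem_filter]; exact ⟨Finset.mem_univ _, Desc.refl par v⟩⟩
    obtain ⟨s, hs, hsmin⟩ := Finset.exists_min_image _ l hne
    obtain ⟨t, ht, htmax⟩ := Finset.exists_max_image _ r hne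
    rw [Finset.mem_filter] at hs ht
    have hmin : ∀ u, Desc par v u → l s ≤ l u := fun u hu =>
      hsmin u (by rw [Finset.mem_filter]; exact ⟨Finset.mem_univ _, hu⟩)
    have hmax : ∀ u, Desc par v u → r u ≤ r t := fun u hu =>
      htmax u (by rw [Finset.mem_filter]; exact ⟨Finset.mem_univ _, hu⟩)
    have key : ∀ u0, Desc par v u0 ∧ ¬ (Desc par u0 s ∨ Desc par u0 t) → ∃ lev : V → ℕ,
        (∀ u, Desc par u0 u → lev u < 2 * b) ∧
        (∀ u, Desc par u0 u → u ≠ u0 → lev (par u) ≤ lev u) ∧
        (∀ u u', Desc par u0 u → Desc par u0 u' → u ≠ u0 → u' ≠ u0 → par u = par u' →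
          lev u = lev (par u) → lev u' = lev (par u') → u = u') := by
      rintro u0 ⟨h1, h2⟩
      rw [not_or] at h2
      exact ih u0 (width_lt par l r hI b v s t u0 hv hs.2 ht.2 hmin hmax h1 h2.1 h2.2)
    have key2 : ∀ u0, ∃ lev : V → ℕ, Desc par v u0 ∧ ¬ (Desc par u0 s ∨ Desc par u0 t) →
        (∀ u, Desc par u0 u → lev u < 2 * b) ∧
        (∀ u, Desc par u0 u → u ≠ u0 → lev (par u) ≤ lev u) ∧
        (∀ u u', Desc par u0 u → Desc par u0 u' → u ≠ u0 → u' ≠ u0 → par u = par u' →
          lev u = lev (par u) → lev u' = lev (par u') → u = u') := by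
      intro u0
      by_cases h : Desc par v u0 ∧ ¬ (Desc par u0 s ∨ Desc par u0 t)
      · obtain ⟨lev, hlev⟩ := key u0 h
        exact ⟨lev, fun _ => hlev⟩
      · exact ⟨fun _ => 0, fun h' => absurd h' h⟩
    choose L hL using key2
    obtain ⟨P, hPdef⟩ : ∃ P : V → Prop, P = fun w => Desc par w s ∨ Desc par w t := ⟨_, rfl⟩
    have hPup : ∀ w, P w → P (par w) := by
      intro w hw
      rw [hPdef] at hw ⊢
      rcases hw with hw | hw
      · exact Or.inl (b3_desc_par hw)
      · exact Or.inr (b3_desc_par hw)
    have hPv : P v := by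
      rw [hPdef]
      exact Or.inl hs.2
    obtain ⟨top, htop⟩ : ∃ top : V → V, top = b3_top par P := ⟨_, rfl⟩
    have hcut : ∀ u, Desc par v u → ¬ P u → ∃ a, ¬ P (par^[a] u) ∧ P (par^[a + 1] u) := by
      intro u hu hPu
      obtain ⟨k, hk⟩ := hu
      exact b3_exists hPu (k := k) (by rw [hk]; exact hPv)
    have hT1 : ∀ u, Desc par v u → ¬ P u → Desc par (top u) u ∧ ¬ P (top u) ∧
        Desc par v (top u) := by
      intro u hu hPu
      obtain ⟨a, ha1, ha2⟩ := hcut u hu hPu
      have h1 : top u = par^[a] u := by rw [htop]; exact b3_top_eq hPup ha1 ha2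
      have h2 : Desc par (top u) u := ⟨a, h1.symm⟩
      have h3 : ¬ P (top u) := by rw [h1]; exact ha1
      refine ⟨h2, h3, ?_⟩
      rcases Desc.total hu h2 with h4 | h4
      · exact h4
      · exfalso
        apply h3
        rw [hPdef]
        exact Or.inl (h4.trans hs.2)
    have hT2 : ∀ u, Desc par v u → u ≠ v → ¬ P (par u) → top u = top (par u) := by
      intro u hu hne hPu
      obtain ⟨a, ha1, ha2⟩ := hcut (par u) (hu.par_mem hne) hPu
      have h1 : top (par u) = par^[a] (par u) := by rw [htop]; exact b3_top_eq hPup ha1 ha2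
      rw [← Function.iterate_succ_apply] at ha1 ha2 h1
      have h2 : top u = par^[a + 1] u := by rw [htop]; exact b3_top_eq hPup ha1 ha2
      rw [h2, h1]
    have hT3 : ∀ u, Desc par v u → u ≠ v → ¬ P (par u) → u ≠ top (par u) := by
      intro u hu hne hPu heq
      have h1 := (hT1 (par u) (hu.par_mem hne) hPu).1
      rw [← heq] at h1
      have h2 : Desc par (par u) u := ⟨1, rfl⟩
      exact b3_not_self hu hne (Desc.antisymm hz hroot h1 h2).symm
    have hPu' : ∀ u, ¬ P (par u) → ¬ P u := fun u h h' => h (hPup u h')
    obtain ⟨lev, hlevdef⟩ : ∃ lev : V → ℕ, lev = fun u =>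
        if Desc par u s then 0 else if Desc par u t then 1 else L (top u) u + 2 := ⟨_, rfl⟩
    have hl0 : ∀ u, Desc par u s → lev u = 0 := by
      intro u h
      rw [hlevdef]
      exact if_pos h
    have hl1 : ∀ u, ¬ Desc par u s → Desc par u t → lev u = 1 := by
      intro u h h'
      rw [hlevdef]
      simp only [if_neg h, if_pos h']
    have hl2 : ∀ u, ¬ P u → lev u = L (top u) u + 2 := by
      intro u h
      rw [hPdef] at h
      simp only [not_or] at h
      rw [hlevdef]
      simp only [if_neg h.1, if_neg h.2]
    have hPor : ∀ u, Desc par u s ∨ (¬ Desc par u s ∧ Desc par u t) ∨ ¬ P u := by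
      intro u
      rw [hPdef]
      by_cases h : Desc par u s
      · exact Or.inl h
      · by_cases h' : Desc par u t
        · exact Or.inr (Or.inl ⟨h, h'⟩)
        · exact Or.inr (Or.inr (not_or.2 ⟨h, h'⟩))
    have hLt : ∀ u, Desc par v u → ¬ P u →
        (∀ x, Desc par (top u) x → L (top u) x < 2 * b) ∧
        (∀ x, Desc par (top u) x → x ≠ top u → L (top u) (par x) ≤ L (top u) x) ∧
        (∀ x x', Desc par (top u) x → Desc par (top u) x' → x ≠ top u → x' ≠ top u →
          par x = par x' → L (top u) x = L (top u) (par x) →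
          L (top u) x' = L (top u) (par x') → x = x') := by
      intro u hu hPu
      obtain ⟨h1, h2, h3⟩ := hT1 u hu hPu
      exact hL (top u) ⟨h3, by rw [hPdef] at h2; exact h2⟩
    refine ⟨lev, ?_, ?_, ?_⟩
    · intro u hu
      rcases hPor u with h | ⟨h, h'⟩ | h
      · rw [hl0 u h]; omega
      · rw [hl1 u h h']; omega
      · rw [hl2 u h]
        have := (hLt u hu h).1 u (hT1 u hu h).1
        omega
    · intro u hu hne
      rcases hPor (par u) with h | ⟨h, h'⟩ | h
      · rw [hl0 _ h]; exact Nat.zero_le _
      · rw [hl1 _ h h']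
        rcases hPor u with h2 | ⟨h2, h2'⟩ | h2
        · exact absurd (b3_desc_par h2) h
        · rw [hl1 u h2 h2']
        · rw [hl2 u h2]; omega
      · have h2 := hPu' u h
        rw [hl2 _ h, hl2 u h2, hT2 u hu hne h]
        have h3 := (hLt (par u) (hu.par_mem hne) h).2.1 u
          (by have := (hT1 u hu h2).1; rwa [hT2 u hu hne h] at this) (hT3 u hu hne h)
        omega
    · intro u u' hu hu' hne hne' hpp he he'
      rcases hPor (par u) with h | ⟨h, h'⟩ | h
      · have h0 : Desc par u s := by
          rw [hl0 _ h] at he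
          rcases hPor u with h2 | ⟨h2, h2'⟩ | h2
          · exact h2
          · rw [hl1 u h2 h2'] at he; omega
          · rw [hl2 u h2] at he; omega
        have h0' : Desc par u' s := by
          rw [← hpp, hl0 _ h] at he'
          rcases hPor u' with h2 | ⟨h2, h2'⟩ | h2
          · exact h2
          · rw [hl1 u' h2 h2'] at he'; omega
          · rw [hl2 u' h2] at he'; omega
        exact child_unique hz hroot (b3_ne_root hz hu hne) (b3_ne_root hz hu' hne') rfl hpp.symm
          h0 h0'
      · have h0 : Desc par u t := by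
          rw [hl1 _ h h'] at he
          rcases hPor u with h2 | ⟨h2, h2'⟩ | h2
          · rw [hl0 u h2] at he; omega
          · exact h2'
          · rw [hl2 u h2] at he; omega
        have h0' : Desc par u' t := by
          rw [← hpp, hl1 _ h h'] at he'
          rcases hPor u' with h2 | ⟨h2, h2'⟩ | h2
          · rw [hl0 u' h2] at he'; omega
          · exact h2'
          · rw [hl2 u' h2] at he'; omega
        exact child_unique hz hroot (b3_ne_root hz hu hne) (b3_ne_root hz hu' hne') rfl hpp.symm
          h0 h0'
      · have h2 := hPu' u h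
        have hp' : ¬ P (par u') := by rw [← hpp]; exact h
        have h2' := hPu' u' hp'
        rw [hl2 _ h, hl2 u h2, hT2 u hu hne h] at he
        rw [hl2 _ hp', hl2 u' h2', hT2 u' hu' hne' hp', ← hpp] at he'
        have hd : Desc par (top (par u)) u := by
          have := (hT1 u hu h2).1
          rwa [hT2 u hu hne h] at this
        have hd' : Desc par (top (par u)) u' := by
          have := (hT1 u' hu' h2').1
          rwa [hT2 u' hu' hne' hp', ← hpp] at this
        have hn' : u' ≠ top (par u) := by
          rw [hpp]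
          exact hT3 u' hu' hne' hp'
        refine (hLt (par u) (hu.par_mem hne) h).2.2 u u' hd hd' (hT3 u hu hne h) hn' hpp
          (by omega) ?_
        rw [← hpp]
        omega

end Pool.Agent.H54P
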