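import Pool.Agent.Lib.H54P.Def

set_option autoImplicit false

namespace Pool.Agent.H54P

private def b4_step (eqv : Bool) (c : ℕ) (a : Addr) : Addr :=
  if eqv then (a.1, a.2 + 1) else ((a.2, c) :: a.1, 0)

private theorem b4_step_ne (eqv : Bool) (c : ℕ) (a : Addr) : b4_step eqv c a ≠ ([], 0) := by
  unfold b4_step
  cases eqv <;> simp

private theorem b4_step_par (eqv : Bool) (c : ℕ) (a : Addr) : Par (b4_step eqv c a) a := by
  obtain ⟨id, e⟩ := a
  cases eqv
  · right
    exact ⟨e, c, id, rfl, rfl⟩
  · left
    exact ⟨id, e, rfl, rfl⟩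

private def b4_psi {V : Type} (par : V → V) (same : V → Bool) (code : V → ℕ) : ℕ → V → Addr
  | 0, _ => ([], 0)
  | k + 1, u => b4_step (same u) (code u) (b4_psi par same code k (par u))

/-- The embedding into the universal tree.

Proof.  Let `dep u` be the least `k` with `par^[k] u = z` (`Nat.find`); `dep (par u) < dep u` for
`u ≠ z`.  Define `φ` by recursion over `dep` (or define `ψ : ℕ → V → Addr` with a fuel and take
`φ u = ψ (dep u) u`): `φ z = ([], 0)`, and for `u ≠ z` with `φ (par u) = (id, e)`:
`φ u = (id, e + 1)` if `lev u = lev (par u)`, `φ u = ((e, code u) :: id, 0)` otherwise, where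
`code : V → ℕ` is injective (`Fintype.equivFin`).  `(φ u).1.length ≤ lev u` by induction.
Injective: by induction over `dep u`: `φ u = φ u'`: if both are `z` clear; `φ u ≠ ([], 0)` for
`u ≠ z`; if `φ u = (id, e+1) = φ u'` then `φ (par u) = φ (par u') = (id, e)`, so `par u = par u'`
and `u = u'` by `h3`; if `φ u = ((e, code u) :: id, 0)` then `code u = code u'`.
`n` = any bound for the finitely many positions occurring (e.g. all positions and attachments are
`≤ dep u < n`). -/
theorem embed {V : Type} [Fintype V] (par : V → V) (z : V) (hz : par z = z)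
    (hroot : ∀ v, ∃ k, par^[k] v = z) (lev : V → ℕ) (K : ℕ) (h1 : ∀ u, lev u < K)
    (h2 : ∀ u, u ≠ z → lev (par u) ≤ lev u)
    (h3 : ∀ u u', u ≠ z → u' ≠ z → par u = par u' → lev u = lev (par u) →
      lev u' = lev (par u') → u = u') :
    ∃ (φ : V → Addr) (n : ℕ), Function.Injective φ ∧
      (∀ u, u ≠ z → Par (φ u) (φ (par u))) ∧ ∀ u, Ok n K (φ u) := by
  classical
  obtain ⟨dep, hdep⟩ : ∃ dep : V → ℕ, ∀ v, par^[dep v] v = z ∧ ∀ k, par^[k] v = z → dep v ≤ k :=
    ⟨fun v => Nat.find (hroot v), fun v => ⟨Nat.find_spec (hroot v), fun k hk => Nat.find_min' _ hk⟩⟩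
  have hdz : dep z = 0 := by
    have := (hdep z).2 0 rfl
    omega
  have hdp : ∀ u, u ≠ z → dep u = dep (par u) + 1 := by
    intro u hu
    have h4 : dep u ≤ dep (par u) + 1 := (hdep u).2 _ (by
      rw [Function.iterate_succ_apply]
      exact (hdep (par u)).1)
    have h5 : dep u ≠ 0 := by
      intro h0
      have h6 := (hdep u).1
      rw [h0] at h6
      exact hu h6
    have h6 : dep (par u) ≤ dep u - 1 := (hdep (par u)).2 _ (by
      rw [← Function.iterate_succ_apply]
      have h7 : (dep u - 1).succ = dep u := by omega
      rw [h7]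
      exact (hdep u).1)
    omega
  obtain ⟨code, hcode⟩ : ∃ code : V → ℕ, Function.Injective code :=
    ⟨fun v => (Fintype.equivFin V v : ℕ), fun a b h =>
      (Fintype.equivFin V).injective (Fin.ext h)⟩
  obtain ⟨same, hsame⟩ : ∃ same : V → Bool, ∀ u, same u = true ↔ lev u = lev (par u) :=
    ⟨fun u => decide (lev u = lev (par u)), fun u => decide_eq_true_iff⟩
  obtain ⟨φ, hφz, hφ⟩ : ∃ φ : V → Addr, φ z = ([], 0) ∧
      ∀ u, u ≠ z → φ u = b4_step (same u) (code u) (φ (par u)) := by
    refine ⟨fun u => b4_psi par same code (dep u) u, ?_, fun u hu => ?_⟩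
    · show b4_psi par same code (dep z) z = ([], 0)
      rw [hdz]
      rfl
    · show b4_psi par same code (dep u) u = _
      rw [hdp u hu]
      rfl
  have hne : ∀ u, u ≠ z → φ u ≠ ([], 0) := by
    intro u hu
    rw [hφ u hu]
    exact b4_step_ne _ _ _
  have hind : ∀ P : V → Prop, P z → (∀ u, u ≠ z → P (par u) → P u) → ∀ u, P u := by
    intro P hz0 hs
    have h4 : ∀ k u, dep u = k → P u := by
      intro k
      induction k with
      | zero =>
        intro u hu
        have h5 : u = z := by
          by_contra h6
          have := hdp u h6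
          omega
        rw [h5]
        exact hz0
      | succ k ih =>
        intro u hu
        by_cases h5 : u = z
        · rw [h5]
          exact hz0
        · refine hs u h5 (ih _ ?_)
          have := hdp u h5
          omega
    exact fun u => h4 _ u rfl
  have hinj : ∀ u u', φ u = φ u' → u = u' := by
    refine hind (fun u => ∀ u', φ u = φ u' → u = u') ?_ ?_
    · intro u' h
      by_contra h5
      exact hne u' (fun h6 => h5 h6.symm) (by rw [← h, hφz])
    · intro u hu ih u' h
      by_cases hu' : u' = z
      · rw [hu', hφz] at h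
        exact absurd h (hne u hu)
      rw [hφ u hu, hφ u' hu'] at h
      unfold b4_step at h
      cases hs : same u <;> cases hs' : same u' <;> rw [hs, hs'] at h
      · simp only [Bool.false_eq_true, if_false, Prod.mk.injEq, List.cons.injEq] at h
        exact hcode h.1.1.2
      · simp only [Bool.false_eq_true, if_false, if_true, Prod.mk.injEq] at h
        omega
      · simp only [Bool.false_eq_true, if_false, if_true, Prod.mk.injEq] at h
        omega
      · simp only [if_true, Prod.mk.injEq, Nat.add_right_cancel_iff] at h
        have h6 : par u = par u' := ih _ (Prod.ext h.1 h.2)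
        exact h3 u u' hu hu' h6 ((hsame u).1 hs) ((hsame u').1 hs')
  have hlen : ∀ u, (φ u).1.length ≤ lev u := by
    refine hind _ ?_ ?_
    · rw [hφz]
      exact Nat.zero_le _
    · intro u hu ih
      rw [hφ u hu]
      unfold b4_step
      have h4 := h2 u hu
      cases hs : same u
      · have h5 : lev u ≠ lev (par u) := fun h6 => by
          rw [(hsame u).2 h6] at hs
          exact Bool.noConfusion hs
        simp only [Bool.false_eq_true, if_false, List.length_cons]
        omega
      · simp only [if_true]
        omega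
  have hbd : ∀ u, (φ u).2 ≤ dep u ∧ ∀ q ∈ (φ u).1, q.1 ≤ dep u := by
    refine hind _ ?_ ?_
    · rw [hφz]
      exact ⟨Nat.zero_le _, fun q hq => absurd hq List.not_mem_nil⟩
    · intro u hu ih
      rw [hφ u hu]
      unfold b4_step
      have h4 := hdp u hu
      cases hs : same u
      · simp only [Bool.false_eq_true, if_false]
        refine ⟨Nat.zero_le _, fun q hq => ?_⟩
        rcases List.mem_cons.1 hq with h5 | h5
        · rw [h5]
          have := ih.1
          show (φ (par u)).2 ≤ dep u
          omega
        · have := ih.2 q h5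
          omega
      · simp only [if_true]
        refine ⟨?_, fun q hq => ?_⟩
        · have := ih.1
          omega
        · have := ih.2 q hq
          omega
  refine ⟨φ, Finset.univ.sup dep + 1, fun u u' h => hinj u u' h, fun u hu => ?_, fun u => ?_⟩
  · rw [hφ u hu]
    exact b4_step_par _ _ _
  · have h4 : dep u ≤ Finset.univ.sup dep := Finset.le_sup (Finset.mem_univ u)
    refine ⟨lt_of_le_of_lt (hlen u) (h1 u), fun q hq => ?_, ?_⟩
    · have := (hbd u).2 q hq
      omega
    · have := (hbd u).1
      omega

end Pool.Agent.H54P
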