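import Mathlib

set_option autoImplicit false

namespace Pool.Agent.H54P

/-- The parent function of a finite tree with root `z`.

Proof.  `par v` = the second vertex of the path from `v` to `z` (`par z = z`); or: a neighbour of
`v` at distance `dist v z - 1` from `z` (it exists since `G` is connected).  In a tree the end
points of an edge have different distance from `z` (`SimpleGraph.IsTree.dist_ne_of_adj` or
uniqueness of paths) and the neighbour nearer to `z` is unique (two of them would give two paths
from `v` to `z`, `IsAcyclic.path_unique`). -/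
theorem exists_parent {V : Type} [Fintype V] (G : SimpleGraph V) (hG : G.IsTree) (z : V) :
    ∃ par : V → V, par z = z ∧ (∀ v, ∃ k, par^[k] v = z) ∧
      (∀ u v, G.Adj u v → (u ≠ z ∧ par u = v) ∨ (v ≠ z ∧ par v = u)) ∧
      ∀ v, v ≠ z → G.Adj v (par v) := by
  classical
  have hex : ∀ v : V, ∃ P : G.Walk v z, P.IsPath ∧ ∀ Q : G.Walk v z, Q.IsPath → Q = P := fun v => by
    obtain ⟨P, hP, hu⟩ := hG.existsUnique_path v z
    exact ⟨P, hP, hu⟩
  choose P hP hPu using hex
  have hz : P z = SimpleGraph.Walk.nil := (hPu z _ SimpleGraph.Walk.IsPath.nil).symm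
  have hcons : ∀ u v (h : G.Adj u v), u ∉ (P v).support → P u = SimpleGraph.Walk.cons h (P v) :=
    fun u v h hn => (hPu u _ (SimpleGraph.Walk.cons_isPath_iff h (P v) |>.2 ⟨hP v, hn⟩)).symm
  have hnn : ∀ v, v ≠ z → ¬ (P v).Nil := fun v hv hn => hv hn.eq
  refine ⟨fun v => (P v).snd, ?_, ?_, ?_, ?_⟩
  · show (P z).snd = z
    rw [hz]
    rfl
  · have key : ∀ n : ℕ, ∀ v, (P v).length ≤ n → ∃ k, (fun v => (P v).snd)^[k] v = z := by
      intro n
      induction n with
      | zero =>
        intro v hv
        exact ⟨0, SimpleGraph.Walk.eq_of_length_eq_zero (Nat.le_zero.1 hv)⟩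
      | succ n ih =>
        intro v hv
        by_cases h : v = z
        · exact ⟨0, h⟩
        · have h1 : P ((P v).snd) = (P v).tail := (hPu _ _ (hP v).tail).symm
          have h2 : (P v).tail.length + 1 = (P v).length := SimpleGraph.Walk.length_tail_add_one (hnn v h)
          obtain ⟨k, hk⟩ := ih ((P v).snd) (by rw [h1]; omega)
          exact ⟨k + 1, by rw [Function.iterate_succ_apply]; exact hk⟩
    exact fun v => key _ v le_rfl
  · intro u v huv
    by_cases hn : u ∈ (P v).support
    · right
      have hvz : v ≠ z := by
        rintro rfl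
        rw [hz, SimpleGraph.Walk.support_nil, List.mem_singleton] at hn
        exact huv.ne hn
      refine ⟨hvz, ?_⟩
      have h1 : (P v).takeUntil u hn = SimpleGraph.Walk.cons huv.symm SimpleGraph.Walk.nil := by
        have h2 : ((P v).takeUntil u hn).IsPath := (hP v).takeUntil hn
        have h3 : (SimpleGraph.Walk.cons huv.symm SimpleGraph.Walk.nil : G.Walk v u).IsPath := by
          rw [SimpleGraph.Walk.cons_isPath_iff]
          exact ⟨SimpleGraph.Walk.IsPath.nil, by
            rw [SimpleGraph.Walk.support_nil, List.mem_singleton]; exact huv.ne'⟩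
        exact (hG.existsUnique_path v u).unique h2 h3
      show (P v).snd = u
      rw [← SimpleGraph.Walk.take_spec (P v) hn, h1]
      simp
    · left
      refine ⟨fun h => hn (h ▸ (P v).end_mem_support), ?_⟩
      show (P u).snd = v
      rw [hcons u v huv hn]
      simp
  · intro v hv
    exact SimpleGraph.Walk.adj_snd (hnn v hv)

end Pool.Agent.H54P
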