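import Mathlib

set_option autoImplicit false

namespace Pool.Agent.H54P

/-- Intervals from a path decomposition.

Proof.  Choose for every vertex `v` an index `i v` with `v ∈ B (i v)` and for every pair `u, v`
of adjacent vertices an index with both in the bag; let `N` be a bound for these finitely many
indices.  `l v` = least `i ≤ N` with `v ∈ B i`, `r v` = greatest `i ≤ N` with `v ∈ B i`
(`Finset.min'`, `max'` of `(range (N+1)).filter`).  If `l v ≤ i ≤ r v` then `v ∈ B i` by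
convexity, so the set in the last claim is contained in `B i`. -/
theorem intervals {V : Type} [Fintype V] (G : SimpleGraph V) (k : ℕ) (B : ℕ → Finset V)
    (hcard : ∀ i, (B i).card ≤ k + 1) (hv : ∀ v : V, ∃ i, v ∈ B i)
    (he : ∀ u v : V, G.Adj u v → ∃ i, u ∈ B i ∧ v ∈ B i)
    (hconv : ∀ (v : V) (i j k : ℕ), i ≤ j → j ≤ k → v ∈ B i → v ∈ B k → v ∈ B j) :
    ∃ l r : V → ℕ, (∀ v, l v ≤ r v) ∧ (∀ u v, G.Adj u v → l u ≤ r v ∧ l v ≤ r u) ∧
      ∀ i, {v | l v ≤ i ∧ i ≤ r v}.ncard ≤ k + 1 := by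
  classical
  choose i hi using hv
  have he' : ∀ u v : V, ∃ j, G.Adj u v → u ∈ B j ∧ v ∈ B j := by
    intro u v
    by_cases h : G.Adj u v
    · obtain ⟨j, hj⟩ := he u v h
      exact ⟨j, fun _ => hj⟩
    · exact ⟨0, fun h' => absurd h' h⟩
  choose j hj using he'
  obtain ⟨N, hN1, hN2⟩ : ∃ N : ℕ, (∀ v, i v ≤ N) ∧ ∀ u v, j u v ≤ N := by
    refine ⟨∑ v, i v + ∑ u, ∑ v, j u v, fun v => ?_, fun u v => ?_⟩
    · exact (Finset.single_le_sum (f := i) (fun _ _ => Nat.zero_le _) (Finset.mem_univ v)).trans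
        (Nat.le_add_right _ _)
    · have h1 : j u v ≤ ∑ v, j u v :=
        Finset.single_le_sum (f := fun v => j u v) (fun _ _ => Nat.zero_le _) (Finset.mem_univ v)
      have h2 : ∑ v, j u v ≤ ∑ u, ∑ v, j u v :=
        Finset.single_le_sum (f := fun u => ∑ v, j u v) (fun _ _ => Nat.zero_le _) (Finset.mem_univ u)
      exact (h1.trans h2).trans (Nat.le_add_left _ _)
  let S : V → Finset ℕ := fun v => (Finset.range (N + 1)).filter fun t => v ∈ B t
  have hmem : ∀ v t, t ∈ S v ↔ t ≤ N ∧ v ∈ B t := by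
    intro v t
    simp only [S, Finset.mem_filter, Finset.mem_range, Nat.lt_succ_iff]
  have hS : ∀ v, (S v).Nonempty := fun v => ⟨i v, (hmem v (i v)).2 ⟨hN1 v, hi v⟩⟩
  refine ⟨fun v => (S v).min' (hS v), fun v => (S v).max' (hS v), fun v => ?_, fun u v huv => ?_, fun t => ?_⟩
  · exact Finset.min'_le _ _ (Finset.max'_mem _ _)
  · have h1 : j u v ∈ S u := (hmem u _).2 ⟨hN2 u v, (hj u v huv).1⟩
    have h2 : j u v ∈ S v := (hmem v _).2 ⟨hN2 u v, (hj u v huv).2⟩
    exact ⟨(Finset.min'_le _ _ h1).trans (Finset.le_max' _ _ h2),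
      (Finset.min'_le _ _ h2).trans (Finset.le_max' _ _ h1)⟩
  · have hsub : {v | (S v).min' (hS v) ≤ t ∧ t ≤ (S v).max' (hS v)} ⊆ (↑(B t) : Set V) := by
      rintro v ⟨h1, h2⟩
      have h3 := ((hmem v _).1 (Finset.min'_mem (S v) (hS v))).2
      have h4 := ((hmem v _).1 (Finset.max'_mem (S v) (hS v))).2
      exact hconv v _ _ _ h1 h2 h3 h4
    calc {v | (S v).min' (hS v) ≤ t ∧ t ≤ (S v).max' (hS v)}.ncard ≤ (↑(B t) : Set V).ncard :=
          Set.ncard_le_ncard hsub (B t).finite_toSet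
      _ = (B t).card := Set.ncard_coe_finset (B t)
      _ ≤ k + 1 := hcard t

end Pool.Agent.H54P
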