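import Pool.Agent.Lib.H54P.D6
import Pool.Agent.Lib.H54P.A8
import Pool.Agent.Lib.H54P.B7
import Pool.Agent.Lib.H54P.B4
import Pool.Agent.Lib.H54P.B5
import Pool.Agent.Lib.H54P.B6

/-!
# Every tree of path-width `k` is nonrepetitively `(2k+1)(96 + 8 log (2k+1))`-choosable: assembly
-/

set_option autoImplicit false

namespace Pool.Agent.H54P

theorem main2 (k : ℕ) {V : Type} [Fintype V] (G : SimpleGraph V) (hG : G.IsTree)
    (B : ℕ → Finset V) (hcard : ∀ i, (B i).card ≤ k + 1) (hv : ∀ v : V, ∃ i, v ∈ B i)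
    (he : ∀ u v : V, G.Adj u v → ∃ i, u ∈ B i ∧ v ∈ B i)
    (hconv : ∀ (v : V) (i j m : ℕ), i ≤ j → j ≤ m → v ∈ B i → v ∈ B m → v ∈ B j)
    (L : V → Finset ℕ)
    (hL : ∀ v, (2 * k + 1) * (96 + 8 * Nat.log 2 (2 * k + 1)) ≤ (L v).card) :
    ∃ f : V → ℕ, (∀ v, f v ∈ L v) ∧
      ∀ l : List V, l.IsChain G.Adj → l.Nodup → ∀ a : List ℕ, a ≠ [] → l.map f ≠ a ++ a := by
  classical
  obtain ⟨l, r, hlr, hadj, hwidth⟩ := intervals G k B hcard hv he hconv
  obtain ⟨z⟩ := hG.isConnected.nonempty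
  obtain ⟨par, hz, hroot, hedge, hpar⟩ := exists_parent G hG z
  have hI : ∀ v, l v ≤ r (par v) ∧ l (par v) ≤ r v := by
    intro v
    by_cases hvz : v = z
    · subst hvz
      rw [hz]
      exact ⟨hlr v, hlr v⟩
    · exact hadj v (par v) (hpar v hvz)
  have hdesc : ∀ u, Desc par z u := hroot
  obtain ⟨lev, h1, h2, h3⟩ := labels1 par z hz hroot l r hlr hI k z (by
    intro i
    refine le_trans (Set.ncard_le_ncard ?_ (Set.toFinite _)) (hwidth i)
    rintro u ⟨-, h⟩
    exact h)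
  obtain ⟨φ, n, hinj, hφ, hok⟩ := embed par z hz hroot lev (2 * k + 1)
    (fun u => h1 u (hdesc u)) (fun u hu => h2 u (hdesc u) hu)
    (fun u u' hu hu' => h3 u u' (hdesc u) (hdesc u') hu hu')
  obtain ⟨F, hF, hFL⟩ := colour2 n (2 * k + 1) (by omega)
    (fun id x => if h : ∃ v, φ v = (id, x) then L h.choose else
      Finset.range ((2 * k + 1) * (96 + 8 * Nat.log 2 (2 * k + 1)))) (by
      intro id x
      by_cases h : ∃ v, φ v = (id, x)
      · simp only [h, dif_pos]
        exact hL _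
      · simp only [h, dif_neg, not_false_eq_true, Finset.card_range]
        exact le_rfl)
  refine ⟨fun v => F (φ v).1 (φ v).2, ?_, ?_⟩
  · intro v
    obtain ⟨ho1, ho2, ho3⟩ := hok v
    have hmem := hFL (φ v).1 (φ v).2 ho1 ho2 ho3
    have hex : ∃ w, φ w = ((φ v).1, (φ v).2) := ⟨v, rfl⟩
    rw [dif_pos hex] at hmem
    have hch : hex.choose = v := hinj hex.choose_spec
    rw [hch] at hmem
    exact hmem
  · intro w hc hn a ha heq
    refine nonrep n (2 * k + 1) F hF (w.map φ) ?_ ?_ (hn.map hinj) a ha ?_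
    · intro b hb
      obtain ⟨v, -, rfl⟩ := List.mem_map.1 hb
      exact hok v
    · rw [List.isChain_map]
      refine hc.imp ?_
      intro u v huv
      rcases hedge u v huv with ⟨hu, hp⟩ | ⟨hu, hp⟩
      · left
        rw [← hp]
        exact hφ u hu
      · right
        rw [← hp]
        exact hφ v hu
    · rw [List.map_map]
      exact heq

end Pool.Agent.H54P
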