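import Pool.Agent.Lib.H54P.Def

set_option autoImplicit false

namespace Pool.Agent.H54P

/-- the event (a) at the head of the word -/
private def EvA (w : List ℕ) (t : ℕ) : Prop :=
  1 ≤ t ∧ T t + t ≤ w.length ∧ w.take (T t) = (w.drop t).take (T t)

/-- the event (b) at the head of the word -/
private def EvB (F : ℕ → Finset (List ℕ)) (w : List ℕ) (m : ℕ) : Prop :=
  1 ≤ m ∧ m ≤ w.length ∧ w.take m ∈ F m

private def Bad (F : ℕ → Finset (List ℕ)) (w : List ℕ) : Prop :=
  (∃ t, EvA w t) ∨ ∃ m, EvB F w m

open Classical in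
/-- one-letter extensions of the words of `S` -/
private noncomputable def ext (A : Finset ℕ) (S : Finset (List ℕ)) : Finset (List ℕ) :=
  (A ×ˢ S).image (fun p => p.1 :: p.2)

open Classical in
private noncomputable def good (F : ℕ → Finset (List ℕ)) (L : ℕ → Finset ℕ) : ℕ → Finset (List ℕ)
  | 0 => {[]}
  | n + 1 => (ext (L n) (good F L n)).filter (fun w => ¬ Bad F w)

private theorem mem_ext {A : Finset ℕ} {S : Finset (List ℕ)} {w : List ℕ} :
    w ∈ ext A S ↔ ∃ a ∈ A, ∃ v ∈ S, w = a :: v := by
  unfold ext
  constructor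
  · intro h
    simp only [Finset.mem_image, Finset.mem_product, Prod.exists] at h
    obtain ⟨a, v, ⟨ha, hv⟩, rfl⟩ := h
    exact ⟨a, ha, v, hv, rfl⟩
  · rintro ⟨a, ha, v, hv, rfl⟩
    simp only [Finset.mem_image, Finset.mem_product, Prod.exists]
    exact ⟨a, v, ⟨ha, hv⟩, rfl⟩

private theorem card_ext (A : Finset ℕ) (S : Finset (List ℕ)) :
    (ext A S).card = A.card * S.card := by
  unfold ext
  rw [Finset.card_image_of_injective, Finset.card_product]
  intro p q h
  simp only [List.cons.injEq] at h
  exact Prod.ext h.1 h.2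

variable {F : ℕ → Finset (List ℕ)} {L : ℕ → Finset ℕ}

private theorem mem_good_succ {n : ℕ} {w : List ℕ} :
    w ∈ good F L (n + 1) ↔ (∃ a ∈ L n, ∃ v ∈ good F L n, w = a :: v) ∧ ¬ Bad F w := by
  classical
  simp only [good, Finset.mem_filter, mem_ext]

private theorem length_good {n : ℕ} {w : List ℕ} (h : w ∈ good F L n) : w.length = n := by
  induction n generalizing w with
  | zero => simp [good] at h; simp [h]
  | succ n ih =>
    obtain ⟨⟨a, _, v, hv, rfl⟩, _⟩ := mem_good_succ.1 h
    simp [ih hv]

private theorem drop_good {n k : ℕ} {w : List ℕ} (h : w ∈ good F L (n + k)) :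
    w.drop k ∈ good F L n := by
  induction k generalizing w with
  | zero => simpa using h
  | succ k ih =>
    obtain ⟨⟨a, _, v, hv, rfl⟩, _⟩ := mem_good_succ.1 (show w ∈ good F L (n + k + 1) from h)
    simpa using ih hv

private theorem drop_ext {n l : ℕ} {w : List ℕ} (h : w ∈ ext (L n) (good F L n)) (hl : 1 ≤ l)
    (hl2 : l ≤ n + 1) : w.drop l ∈ good F L (n + 1 - l) := by
  obtain ⟨a, _, v, hv, rfl⟩ := mem_ext.1 h
  have h2 : v ∈ good F L ((n + 1 - l) + (l - 1)) := by
    have : (n + 1 - l) + (l - 1) = n := by omega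
    rw [this]; exact hv
  have h3 := drop_good h2
  have h4 : (a :: v).drop l = v.drop (l - 1) := by
    obtain ⟨m, rfl⟩ : ∃ m, l = m + 1 := ⟨l - 1, by omega⟩
    simp
  rw [h4]
  exact h3

private theorem length_ext {n : ℕ} {w : List ℕ} (h : w ∈ ext (L n) (good F L n)) :
    w.length = n + 1 := by
  obtain ⟨a, _, v, hv, rfl⟩ := mem_ext.1 h
  simp [length_good hv]

private theorem T_pos (t : ℕ) : 1 ≤ T t := by unfold T; omega

private theorem T_le {t : ℕ} (h : 1 ≤ t) : T t ≤ t := by unfold T; omega

open Classical in
private theorem card_A (n t : ℕ) :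
    ((ext (L n) (good F L n)).filter (fun w => EvA w t)).card ≤ (good F L (n + 1 - T t)).card := by
  apply Finset.card_le_card_of_injOn (fun w => w.drop (T t))
  · intro w hw
    simp only [Finset.coe_filter, Set.mem_ofPred_eq] at hw
    have h1 := hw.2.2.1
    rw [length_ext hw.1] at h1
    exact drop_ext hw.1 (T_pos t) (by omega)
  · intro w hw w' hw' he
    simp only [Finset.coe_filter, Set.mem_ofPred_eq] at hw hw'
    simp only at he
    have hT := T_le hw.2.1
    have e0 : ∀ v : List ℕ, v.drop t = (v.drop (T t)).drop (t - T t) := by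
      intro v
      rw [List.drop_drop]
      congr 1
      omega
    have e1 : w.take (T t) = w'.take (T t) := by
      rw [hw.2.2.2, hw'.2.2.2, e0 w, e0 w', he]
    rw [← List.take_append_drop (T t) w, ← List.take_append_drop (T t) w', e1, he]

open Classical in
private theorem card_B (n m : ℕ) :
    ((ext (L n) (good F L n)).filter (fun w => EvB F w m)).card ≤
      (F m).card * (good F L (n + 1 - m)).card := by
  rw [← Finset.card_product]
  apply Finset.card_le_card_of_injOn (fun w => (w.take m, w.drop m))
  · intro w hw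
    simp only [Finset.coe_filter, Set.mem_ofPred_eq] at hw
    have h1 := hw.2.2.1
    rw [length_ext hw.1] at h1
    simp only [Finset.coe_product, Set.mem_prod, Finset.mem_coe]
    exact ⟨hw.2.2.2, drop_ext hw.1 hw.2.1 h1⟩
  · intro w _ w' _ he
    simp only [Prod.mk.injEq] at he
    rw [← List.take_append_drop m w, ← List.take_append_drop m w', he.1, he.2]

open Classical in
private theorem card_bad (n : ℕ) :
    ((ext (L n) (good F L n)).filter (fun w => Bad F w)).card ≤
      ∑ t ∈ Finset.range n, (good F L (n + 1 - T (t + 1))).card +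
        ∑ m ∈ Finset.range (n + 1), (F (m + 1)).card * (good F L (n - m)).card := by
  set E := ext (L n) (good F L n) with hE
  have hsub : E.filter (fun w => Bad F w) ⊆
      ((Finset.range n).biUnion (fun t => E.filter (fun w => EvA w (t + 1)))) ∪
        (Finset.range (n + 1)).biUnion (fun m => E.filter (fun w => EvB F w (m + 1))) := by
    intro w hw
    rw [Finset.mem_filter] at hw
    obtain ⟨hwE, hb⟩ := hw
    simp only [Finset.mem_union, Finset.mem_biUnion, Finset.mem_filter, Finset.mem_range]
    have hl := length_ext hwE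
    rcases hb with ⟨t, h⟩ | ⟨m, h⟩
    · left
      have h1 := h.1
      have h2 := h.2.1
      rw [hl] at h2
      have h3 := T_pos t
      obtain ⟨t', rfl⟩ : ∃ t', t = t' + 1 := ⟨t - 1, by omega⟩
      exact ⟨t', by omega, hwE, h⟩
    · right
      have h1 := h.1
      have h2 := h.2.1
      rw [hl] at h2
      obtain ⟨m', rfl⟩ : ∃ m', m = m' + 1 := ⟨m - 1, by omega⟩
      exact ⟨m', by omega, hwE, h⟩
  refine (Finset.card_le_card hsub).trans ((Finset.card_union_le _ _).trans (add_le_add ?_ ?_))
  · exact Finset.card_biUnion_le.trans (Finset.sum_le_sum fun t _ => card_A n (t + 1))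
  · refine Finset.card_biUnion_le.trans (Finset.sum_le_sum fun m _ => ?_)
    have h1 := card_B (F := F) (L := L) n (m + 1)
    have e : n + 1 - (m + 1) = n - m := by omega
    rw [e] at h1
    exact h1

private theorem sumT (N : ℕ) : ∑ t ∈ Finset.range N, (1 / 2 : ℚ) ^ (T (t + 1) - 1) ≤ 3 := by
  have h1 : ∀ k : ℕ, ∑ t ∈ Finset.range (2 * k), (1 / 2 : ℚ) ^ (T (t + 1) - 1) = 3 - 3 * (1 / 2) ^ k := by
    intro k
    induction k with
    | zero => simp
    | succ k ih =>
      rw [show 2 * (k + 1) = 2 * k + 1 + 1 by ring, Finset.sum_range_succ, Finset.sum_range_succ, ih]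
      have e1 : T (2 * k + 1) - 1 = k := by unfold T; omega
      have e2 : T (2 * k + 1 + 1) - 1 = k + 1 := by unfold T; omega
      rw [e1, e2, pow_succ]
      ring
  have h2 : ∑ t ∈ Finset.range N, (1 / 2 : ℚ) ^ (T (t + 1) - 1) ≤
      ∑ t ∈ Finset.range (2 * N), (1 / 2 : ℚ) ^ (T (t + 1) - 1) :=
    Finset.sum_le_sum_of_subset_of_nonneg (Finset.range_mono (by omega)) fun _ _ _ => by positivity
  rw [h1] at h2
  have h3 : (0 : ℚ) ≤ 3 * (1 / 2) ^ N := by positivity
  linarith

private theorem sumM (N : ℕ) : ∑ m ∈ Finset.range N, ((m : ℚ) + 1) * (1 / 2) ^ m ≤ 4 := by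
  have h1 : ∀ k : ℕ, ∑ m ∈ Finset.range k, ((m : ℚ) + 1) * (1 / 2) ^ m = 4 - 2 * (k + 2) * (1 / 2) ^ k := by
    intro k
    induction k with
    | zero => norm_num
    | succ k ih =>
      rw [Finset.sum_range_succ, ih, pow_succ]
      push_cast
      ring
  rw [h1]
  have h3 : (0 : ℚ) ≤ 2 * (N + 2) * (1 / 2) ^ N := by positivity
  linarith

private theorem sumG (N : ℕ) : ∑ m ∈ Finset.range N, (1 / 2 : ℚ) ^ m ≤ 2 := by
  have h1 : ∀ k : ℕ, ∑ m ∈ Finset.range k, (1 / 2 : ℚ) ^ m = 2 - 2 * (1 / 2) ^ k := by
    intro k
    induction k with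
    | zero => norm_num
    | succ k ih =>
      rw [Finset.sum_range_succ, ih, pow_succ]
      ring
  rw [h1]
  have h3 : (0 : ℚ) ≤ 2 * (1 / 2) ^ N := by positivity
  linarith

private theorem growth {n A E : ℕ} (hL : ∀ i, i < n → 5 + 4 * A + 2 * E ≤ (L i).card)
    (hF : ∀ m, (F m).card ≤ A * m + E) :
    ∀ N, N < n → 2 * (good F L N).card ≤ (good F L (N + 1)).card := by
  classical
  intro N
  induction N using Nat.strong_induction_on with
  | _ N ih =>
    intro hN
    -- the numbers decrease at least geometrically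
    have hdec : ∀ j, j ≤ N → ((good F L (N - j)).card : ℚ) ≤ (good F L N).card * (1 / 2) ^ j := by
      intro j
      induction j with
      | zero => intro _; simp
      | succ j ihj =>
        intro hj
        have h1 := ihj (by omega)
        have h2 := ih (N - (j + 1)) (by omega) (by omega)
        rw [show N - (j + 1) + 1 = N - j by omega] at h2
        have h3 : (2 : ℚ) * (good F L (N - (j + 1))).card ≤ (good F L (N - j)).card := by exact_mod_cast h2
        rw [pow_succ]
        linarith
    have hb := card_bad (F := F) (L := L) N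
    have h5 := hL N hN
    have hs := Finset.card_filter_add_card_filter_not (s := ext (L N) (good F L N)) (fun w => Bad F w)
    have hg : (good F L (N + 1)).card =
        ((ext (L N) (good F L N)).filter (fun w => ¬ Bad F w)).card := by
      simp only [good]
    have he : (5 + 4 * A + 2 * E) * (good F L N).card ≤ (ext (L N) (good F L N)).card := by
      rw [card_ext]; exact Nat.mul_le_mul_right _ h5
    rw [← hg] at hs
    set a : ℚ := ((good F L N).card : ℚ) with ha
    have ha0 : 0 ≤ a := by rw [ha]; positivity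
    have hA : ((∑ t ∈ Finset.range N, (good F L (N + 1 - T (t + 1))).card : ℕ) : ℚ) ≤ 3 * a := by
      push_cast
      have h1 : ∑ t ∈ Finset.range N, ((good F L (N + 1 - T (t + 1))).card : ℚ) ≤
          ∑ t ∈ Finset.range N, a * (1 / 2) ^ (T (t + 1) - 1) := by
        refine Finset.sum_le_sum fun t ht => ?_
        rw [Finset.mem_range] at ht
        have h2 := T_pos (t + 1)
        have h3 := T_le (t := t + 1) (by omega)
        have h4 := hdec (T (t + 1) - 1) (by omega)
        rw [show N - (T (t + 1) - 1) = N + 1 - T (t + 1) by omega] at h4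
        exact h4
      rw [← Finset.mul_sum] at h1
      have h2 := mul_le_mul_of_nonneg_left (sumT N) ha0
      linarith
    have hB : ((∑ m ∈ Finset.range (N + 1), (F (m + 1)).card * (good F L (N - m)).card : ℕ) : ℚ) ≤
        4 * A * a + 2 * E * a := by
      push_cast
      have h1 : ∑ m ∈ Finset.range (N + 1), ((F (m + 1)).card : ℚ) * (good F L (N - m)).card ≤
          ∑ m ∈ Finset.range (N + 1), ((A * a) * (((m : ℚ) + 1) * (1 / 2) ^ m) +
            (E * a) * (1 / 2) ^ m) := by
        refine Finset.sum_le_sum fun m hm => ?_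
        rw [Finset.mem_range] at hm
        have h2 : ((F (m + 1)).card : ℚ) ≤ A * (m + 1) + E := by exact_mod_cast hF (m + 1)
        have h3 := hdec m (by omega)
        have h4 : (0 : ℚ) ≤ (good F L (N - m)).card := by positivity
        calc ((F (m + 1)).card : ℚ) * (good F L (N - m)).card
            ≤ (A * (m + 1) + E) * (a * (1 / 2) ^ m) := by
              apply mul_le_mul h2 h3 h4 (by positivity)
          _ = (A * a) * (((m : ℚ) + 1) * (1 / 2) ^ m) + (E * a) * (1 / 2) ^ m := by ring
      rw [Finset.sum_add_distrib, ← Finset.mul_sum, ← Finset.mul_sum] at h1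
      have h2 := mul_le_mul_of_nonneg_left (sumM (N + 1)) (show (0 : ℚ) ≤ A * a by positivity)
      have h3 := mul_le_mul_of_nonneg_left (sumG (N + 1)) (show (0 : ℚ) ≤ E * a by positivity)
      linarith
    have hb' : (((ext (L N) (good F L N)).filter (fun w => Bad F w)).card : ℚ) ≤
        3 * a + (4 * A * a + 2 * E * a) := by
      have h1 : (((ext (L N) (good F L N)).filter (fun w => Bad F w)).card : ℚ) ≤
          ((∑ t ∈ Finset.range N, (good F L (N + 1 - T (t + 1))).card : ℕ) : ℚ) +
            ((∑ m ∈ Finset.range (N + 1), (F (m + 1)).card * (good F L (N - m)).card : ℕ) : ℚ) := by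
        exact_mod_cast hb
      linarith
    have hs' : (((ext (L N) (good F L N)).filter (fun w => Bad F w)).card : ℚ) +
        (good F L (N + 1)).card = (ext (L N) (good F L N)).card := by exact_mod_cast hs
    have he' : (5 + 4 * (A : ℚ) + 2 * (E : ℚ)) * a ≤ (ext (L N) (good F L N)).card := by
      rw [ha]; exact_mod_cast he
    have hfin : (2 : ℚ) * a ≤ (good F L (N + 1)).card := by linarith
    rw [ha] at hfin
    exact_mod_cast hfin

/-- Counting lemma with `A * m + E` forbidden words of length `m` (generalises `count` of A1, the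
same proof): `∑_(m ≥ 1) (A m + E) 2^(1-m) = 4 A + 2 E`. -/
theorem count2 (n A E : ℕ) (L : ℕ → Finset ℕ)
    (hL : ∀ i, i < n → 5 + 4 * A + 2 * E ≤ (L i).card)
    (F : ℕ → Finset (List ℕ)) (hF : ∀ m, (F m).card ≤ A * m + E) :
    ∃ g : ℕ → ℕ, (∀ i, i < n → g i ∈ L i) ∧ Spine n g ∧
      ∀ m x, 1 ≤ m → m ≤ x + 1 → x < n → (List.range m).map (fun u => g (x - u)) ∉ F m := by
  have hgr := growth (F := F) (L := L) hL hF
  have hpos : ∀ N, N ≤ n → 0 < (good F L N).card := by
    intro N
    induction N with
    | zero => intro _; simp [good]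
    | succ N ih =>
      intro hN
      have h1 := hgr N (by omega)
      have h2 := ih (by omega)
      omega
  obtain ⟨w, hw⟩ := Finset.card_pos.1 (hpos n le_rfl)
  have hlen := length_good hw
  set g : ℕ → ℕ := fun i => (w[n - 1 - i]?).getD 0 with hg
  have hk : ∀ k, k < n → w[k]? = some (g (n - 1 - k)) := by
    intro k hk
    have e : n - 1 - (n - 1 - k) = k := by omega
    simp only [hg, e]
    rw [List.getElem?_eq_getElem (by omega)]
    simp
  have hsuf : ∀ x, x < n → w.drop (n - (x + 1)) ∈ good F L (x + 1) := by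
    intro x hx
    have hw' : w ∈ good F L ((x + 1) + (n - (x + 1))) := by
      have : (x + 1) + (n - (x + 1)) = n := by omega
      rw [this]; exact hw
    exact drop_good hw'
  have hat : ∀ x, x < n → ∀ k, k ≤ x → (w.drop (n - (x + 1)))[k]? = some (g (x - k)) := by
    intro x hx k hkx
    rw [List.getElem?_drop, hk _ (by omega)]
    congr 2
    omega
  refine ⟨g, ?_, ?_, ?_⟩
  · intro i hi
    obtain ⟨⟨a, ha, v, hv, hav⟩, _⟩ := mem_good_succ.1 (hsuf i hi)
    have h0 : (w.drop (n - (i + 1)))[0]? = some a := by rw [hav]; rfl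
    rw [hat i hi 0 (by omega)] at h0
    have h1 := Option.some.inj h0
    rw [Nat.sub_zero] at h1
    rw [h1]
    exact ha
  · intro t ht i hi
    by_contra hcon
    push Not at hcon
    have hTp := T_pos t
    have hx : i + T t + t - 1 < n := by omega
    have hd := hsuf _ hx
    refine (mem_good_succ.1 hd).2 (Or.inl ⟨t, ht, ?_, ?_⟩)
    · rw [length_good hd]; omega
    · apply List.ext_getElem?
      intro k
      by_cases hkT : k < T t
      · rw [List.getElem?_take_of_lt hkT, List.getElem?_take_of_lt hkT, List.getElem?_drop (i := t),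
          hat _ hx _ (by omega), hat _ hx _ (by omega)]
        have := hcon (T t - 1 - k) (by omega)
        have e1 : i + T t + t - 1 - k = i + (T t - 1 - k) + t := by omega
        have e2 : i + T t + t - 1 - (t + k) = i + (T t - 1 - k) := by omega
        rw [e1, e2, this]
      · rw [List.getElem?_eq_none, List.getElem?_eq_none]
        · rw [List.length_take]; omega
        · rw [List.length_take]; omega
  · intro m x hm hmx hx hmem
    have hd := hsuf x hx
    refine (mem_good_succ.1 hd).2 (Or.inr ⟨m, hm, ?_, ?_⟩)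
    · rw [length_good hd]; omega
    · have e : (w.drop (n - (x + 1))).take m = (List.range m).map (fun u => g (x - u)) := by
        apply List.ext_getElem?
        intro k
        by_cases hkm : k < m
        · rw [List.getElem?_take_of_lt hkm, hat x hx k (by omega), List.getElem?_map,
            List.getElem?_range hkm]
          rfl
        · rw [List.getElem?_eq_none, List.getElem?_eq_none]
          · rw [List.length_map, List.length_range]; omega
          · rw [List.length_take]; omega
      rw [e]
      exact hmem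

end Pool.Agent.H54P
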