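import Mathlib

set_option autoImplicit false

namespace Pool.Agent.H54P

private lemma top_card2 (S : Finset ℕ) (M : ℕ) (h1 : ∀ y ∈ S, 1 ≤ y ∧ y ≤ M)
    (h2 : ∀ y ∈ S, ∀ y' ∈ S, y < y' → 3 * y ≤ 2 * y') :
    (S.filter (fun y => M / 2 < y)).card ≤ 2 := by
  by_contra hc
  have hc' : 2 < (S.filter (fun y => M / 2 < y)).card := by omega
  obtain ⟨a, ha, b, hb, c, hcc, hab, hac, hbc⟩ := Finset.two_lt_card.1 hc'
  rw [Finset.mem_filter] at ha hb hcc
  have a1 := h1 a ha.1
  have b1 := h1 b hb.1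
  have c1 := h1 c hcc.1
  have e1 := h2 a ha.1 b hb.1
  have e2 := h2 b hb.1 a ha.1
  have e3 := h2 a ha.1 c hcc.1
  have e4 := h2 c hcc.1 a ha.1
  have e5 := h2 b hb.1 c hcc.1
  have e6 := h2 c hcc.1 b hb.1
  have a2 := ha.2
  have b2 := hb.2
  have c2 := hcc.2
  rcases lt_or_gt_of_ne hab with x | x <;> rcases lt_or_gt_of_ne hac with y | y <;>
    rcases lt_or_gt_of_ne hbc with z | z <;>
    · have p1 : a < b → 3 * a ≤ 2 * b := e1
      have p2 : b < a → 3 * b ≤ 2 * a := e2
      have p3 : a < c → 3 * a ≤ 2 * c := e3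
      have p4 : c < a → 3 * c ≤ 2 * a := e4
      have p5 : b < c → 3 * b ≤ 2 * c := e5
      have p6 : c < b → 3 * c ≤ 2 * b := e6
      omega

/-- A set of numbers in `[1, M]` in which every element is at least 3/2 times every smaller one.

Proof.  Induction over `M`: `S ∩ (M/2, M]` has at most two elements (three elements
`y1 < y2 < y3` would give `4 y3 ≥ 9 y1 > 4 M`), and `Nat.log 2 M = Nat.log 2 (M/2) + 1` for
`M ≥ 2`. -/
theorem spacing (S : Finset ℕ) (M : ℕ) (h1 : ∀ y ∈ S, 1 ≤ y ∧ y ≤ M)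
    (h2 : ∀ y ∈ S, ∀ y' ∈ S, y < y' → 3 * y ≤ 2 * y') : S.card ≤ 2 * Nat.log 2 M + 2 := by
  induction M using Nat.strong_induction_on generalizing S with
  | _ M ih =>
    by_cases hM : M < 2
    · have hsub : S ⊆ {1} := by
        intro y hy
        have := h1 y hy
        rw [Finset.mem_singleton]
        omega
      have := Finset.card_le_card hsub
      rw [Finset.card_singleton] at this
      omega
    · have hM2 : 2 ≤ M := by omega
      have hlog : Nat.log 2 M = Nat.log 2 (M / 2) + 1 :=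
        Nat.log_of_one_lt_of_le (by norm_num) hM2
      have h3 := ih (M / 2) (by omega) (S.filter (fun y => ¬ M / 2 < y))
        (fun y hy => by
          rw [Finset.mem_filter] at hy
          have h := h1 y hy.1
          have h' := hy.2
          omega)
        (fun y hy y' hy' => by
          rw [Finset.mem_filter] at hy hy'
          exact h2 y hy.1 y' hy'.1)
      have h4 := top_card2 S M h1 h2
      have h5 := Finset.card_filter_add_card_filter_not (s := S) (fun y => M / 2 < y)
      omega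

/-- `20 K m < 2 ^ (log K + 5 + m)`. -/
theorem log_bound (K m : ℕ) (hK : 1 ≤ K) (hm : 1 ≤ m) :
    Nat.log 2 (20 * K * m) ≤ Nat.log 2 K + 4 + m := by
  have h1 : 20 * m ≤ 16 * 2 ^ m := by
    induction m, hm using Nat.le_induction with
    | base => norm_num
    | succ k hk ih =>
      rw [pow_succ]
      omega
  have h2 : K < 2 ^ (Nat.log 2 K + 1) := Nat.lt_pow_succ_log_self (by norm_num) K
  have h3 : 20 * K * m < 2 ^ (Nat.log 2 K + 4 + m + 1) := by
    calc 20 * K * m = K * (20 * m) := by ring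
      _ < 2 ^ (Nat.log 2 K + 1) * (20 * m) := Nat.mul_lt_mul_of_pos_right h2 (by omega)
      _ ≤ 2 ^ (Nat.log 2 K + 1) * (16 * 2 ^ m) := Nat.mul_le_mul_left _ h1
      _ = 2 ^ (Nat.log 2 K + 4 + m + 1) := by
          rw [show (16 : ℕ) = 2 ^ 4 by norm_num, ← pow_add, ← pow_add]
          congr 1
          ring
  have h4 : 20 * K * m ≠ 0 := by positivity
  have := Nat.log_lt_of_lt_pow h4 h3
  omega

end Pool.Agent.H54P
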