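import Pool.Agent.Lib.H54P.Def
import Pool.Agent.Lib.H54P.D2

set_option autoImplicit false

namespace Pool.Agent.H54P

/-- The far end `δ` of the part (of length `m`) on the new path of a match which continues with
`r ≥ 1` letters of the upward word `pre`. -/
def Far (n K : ℕ) (pre : Ctx) (e : ℕ) (h : ℕ → ℕ) (up : Bool) (m δ : ℕ) : Prop :=
  5 * m < δ ∧ δ ≤ (20 * K + 5) * m ∧ ∃ r, 1 ≤ r ∧ r ≤ len pre ∧ δ ≤ 5 * m + 4 * r ∧
    Fits n up e (δ + r) ∧ ∀ u, u < r → wd pre u = h (pos up e (δ + 1 + u))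

/-- Two such `δ < δ'`: `h` has a match of length `min r r'` at distance `δ' - δ`, so
`min r r' ≤ (δ' - δ) / 2` by `Spine n h`, and `4 min r r' ≥ δ - 5 m`: with `y = δ - 5 m`,
`y' = δ' - 5 m` we get `y' ≥ 3/2 y`.

Proof of the match: for `u < min r r'` both `h (pos up e (δ + 1 + u))` and
`h (pos up e (δ' + 1 + u))` are `wd pre u`.  If `up = false` these are the positions `e + δ + u` and
`e + δ' + u`: a match from the position `e + δ`.  If `up = true` they are `e - δ - u` and
`e - δ' - u` (all `≥ 0` since `δ' + r' ≤ e + 1`): a match from the position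
`e + 1 - δ' - (min r r')` (use the length `T t` exactly: if `min r r' ≥ T t`, take the first `T t`
letters; the match occupies positions `< n`: in the case `up = true` add the hypothesis
`e < n`). -/
theorem far_spacing (n K : ℕ) (pre : Ctx) (e : ℕ) (he : e < n) (h : ℕ → ℕ) (hs : Spine n h)
    (up : Bool) (m δ δ' : ℕ) (h1 : Far n K pre e h up m δ) (h2 : Far n K pre e h up m δ')
    (hlt : δ < δ') : 3 * (δ - 5 * m) ≤ 2 * (δ' - 5 * m) := by
  obtain ⟨a1, a2, r, r1, r2, r3, r4, r5⟩ := h1
  obtain ⟨b1, b2, r', s1, s2, s3, s4, s5⟩ := h2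
  by_contra hc
  have hTr : T (δ' - δ) ≤ r := by
    unfold T
    omega
  have hTr' : T (δ' - δ) ≤ r' := by
    unfold T
    omega
  have hT1 : 1 ≤ T (δ' - δ) := by
    unfold T
    omega
  cases up with
  | false =>
    unfold Fits at r4 s4
    simp only [Bool.false_eq_true, if_false] at r4 s4
    obtain ⟨u, hu, hne⟩ := hs (δ' - δ) (by omega) (e + δ) (by omega)
    apply hne
    have e1 := r5 u (by omega)
    have e2 := s5 u (by omega)
    unfold pos at e1 e2
    simp only [Bool.false_eq_true, if_false] at e1 e2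
    have f1 : e + (δ + 1 + u) - 1 = e + δ + u := by omega
    have f2 : e + (δ' + 1 + u) - 1 = e + δ + u + (δ' - δ) := by omega
    rw [f1] at e1
    rw [f2] at e2
    exact e1.symm.trans e2
  | true =>
    unfold Fits at r4 s4
    simp only [if_true] at r4 s4
    obtain ⟨v, hv, hne⟩ := hs (δ' - δ) (by omega) (e + 1 - δ' - T (δ' - δ)) (by omega)
    apply hne
    have e1 := r5 (T (δ' - δ) - 1 - v) (by omega)
    have e2 := s5 (T (δ' - δ) - 1 - v) (by omega)
    unfold pos at e1 e2
    simp only [if_true] at e1 e2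
    have f1 : e + 1 - (δ + 1 + (T (δ' - δ) - 1 - v)) = e + 1 - δ' - T (δ' - δ) + v + (δ' - δ) := by omega
    have f2 : e + 1 - (δ' + 1 + (T (δ' - δ) - 1 - v)) = e + 1 - δ' - T (δ' - δ) + v := by omega
    rw [f1] at e1
    rw [f2] at e2
    exact e2.symm.trans e1

/-- The number of such `δ` (by `spacing` for the numbers `δ - 5 m` and `log_bound`). -/
theorem far_card (n K : ℕ) (hK : 1 ≤ K) (pre : Ctx) (e : ℕ) (he : e < n) (h : ℕ → ℕ)
    (hs : Spine n h) (up : Bool) (m : ℕ) (hm : 1 ≤ m) (S : Finset ℕ)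
    (hS : ∀ δ ∈ S, Far n K pre e h up m δ) :
    S.card ≤ 2 * m + 2 * Nat.log 2 K + 10 := by
  have hcard : (S.image fun δ => δ - 5 * m).card = S.card := by
    apply Finset.card_image_of_injOn
    intro a ha b hb hab
    have h1 := (hS a ha).1
    have h2 := (hS b hb).1
    have h3 : a - 5 * m = b - 5 * m := hab
    omega
  have h1 : ∀ y ∈ S.image (fun δ => δ - 5 * m), 1 ≤ y ∧ y ≤ 20 * K * m := by
    intro y hy
    obtain ⟨δ, hδ, rfl⟩ := Finset.mem_image.1 hy
    have h2 := hS δ hδ
    have h3 := h2.1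
    have h4 := h2.2.1
    have h5 : (20 * K + 5) * m = 20 * K * m + 5 * m := by ring
    constructor
    · omega
    · omega
  have h2 : ∀ y ∈ S.image (fun δ => δ - 5 * m), ∀ y' ∈ S.image (fun δ => δ - 5 * m), y < y' → 3 * y ≤ 2 * y' := by
    intro y hy y' hy' hlt
    obtain ⟨δ, hδ, rfl⟩ := Finset.mem_image.1 hy
    obtain ⟨δ', hδ', rfl⟩ := Finset.mem_image.1 hy'
    exact far_spacing n K pre e he h hs up m δ δ' (hS δ hδ) (hS δ' hδ') (by omega)
  have h3 := spacing _ _ h1 h2
  have h4 := log_bound K m hK hm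
  rw [hcard] at h3
  omega

end Pool.Agent.H54P
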