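import Pool.Agent.Lib.H54P.A3
import Pool.Agent.Lib.H54P.D3

set_option autoImplicit false

namespace Pool.Agent.H54P

/-- A match of the upward word of `(x, g) :: c` with an ancestor path gives a match of the part on
the new path `g` alone, with a far end `δ ≤ 5 m'` or a `Far` one (with `m' = x + 1`).

Proof.  As `reduce` in A3: let `m` be the length of the match, `pre0 = (x, g) :: pre`,
`c = pre ++ (e,h) :: rest`.  If `m ≤ x + 1`: `δ = d ≤ 5 m` (from `d K ≤ (5K+1-length) m`, `K ≥ 1`),
use `hI`.  If `m > x + 1`: `m' = x + 1`, `r = m - (x+1) ≥ 1`, `δ = d - r`; by `Val n K c`: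
`¬ (d * K ≤ (5 * K + 1 - c.length) * r)`; `arith` gives `m' ≤ δ ≤ (20 K + 5) m'`; and
`d ≤ 5 m = 5 m' + 5 r` gives `δ ≤ 5 m' + 4 r`.  If `δ ≤ 5 m'` use `hI` (with `m := x + 1`),
otherwise `hF`. -/
theorem reduce2 (n K : ℕ) (hK : 1 ≤ K) (c : Ctx) (hc : c.length + 1 ≤ K) (hv : Val n K c)
    (g : ℕ → ℕ) (x : ℕ)
    (hI : ∀ e h, (e, h) ∈ c → ∀ (up : Bool) (m δ : ℕ), 1 ≤ m → m ≤ x + 1 → m ≤ δ →
      δ ≤ 5 * m → ∃ u, u < m ∧ g (x - u) ≠ h (pos up e (δ - m + 1 + u)))
    (hF : ∀ pre e h rest, c = pre ++ (e, h) :: rest → ∀ (up : Bool) (δ : ℕ),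
      Far n K pre e h up (x + 1) δ →
      ∃ u, u < x + 1 ∧ g (x - u) ≠ h (pos up e (δ - (x + 1) + 1 + u))) :
    Val n K ((x, g) :: c) := by
  intro pre0 e h rest hc0 hne up m d h1 hmd hmlen hdK hfit
  obtain ⟨pre, rfl, hcp⟩ : ∃ pre, pre0 = (x, g) :: pre ∧ c = pre ++ (e, h) :: rest := by
    cases pre0 with
    | nil => exact absurd rfl hne
    | cons a pre =>
      rw [List.cons_append, List.cons.injEq] at hc0
      exact ⟨pre, by rw [hc0.1], hc0.2⟩
  have hmem : (e, h) ∈ c := by rw [hcp]; simp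
  have hlen1 : ((x, g) :: c).length = c.length + 1 := rfl
  rw [hlen1] at hdK
  have e1 : 5 * K + 1 - (c.length + 1) = 5 * K - c.length := by omega
  rw [e1] at hdK
  have hd5 : d ≤ 5 * m := by
    have h2 : (5 * K - c.length) * m ≤ (5 * K) * m := Nat.mul_le_mul_right _ (Nat.sub_le _ _)
    have h3 : d * K ≤ (5 * m) * K := by
      calc d * K ≤ (5 * K) * m := le_trans hdK h2
        _ = (5 * m) * K := by ring
    exact Nat.le_of_mul_le_mul_right h3 hK
  have hw1 : ∀ u, u ≤ x → wd ((x, g) :: pre) u = g (x - u) := by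
    intro u hu
    show (if u ≤ x then g (x - u) else wd pre (u - x - 1)) = g (x - u)
    rw [if_pos hu]
  have hw2 : ∀ u, wd ((x, g) :: pre) (x + 1 + u) = wd pre u := by
    intro u
    show (if x + 1 + u ≤ x then g (x - (x + 1 + u)) else wd pre (x + 1 + u - x - 1)) = wd pre u
    rw [if_neg (by omega)]
    congr 1
    omega
  by_cases hmx : m ≤ x + 1
  · obtain ⟨u, hu, hne'⟩ := hI e h hmem up m d h1 hmx hmd hd5
    exact ⟨u, hu, by rw [hw1 u (by omega)]; exact hne'⟩
  · by_contra hcon
    have hall : ∀ u, u < m → wd ((x, g) :: pre) u = h (pos up e (d - m + 1 + u)) := by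
      intro u hu
      by_contra hne'
      exact hcon ⟨u, hu, hne'⟩
    obtain ⟨r, hr, hmr⟩ : ∃ r, 1 ≤ r ∧ m = x + 1 + r := ⟨m - (x + 1), by omega, by omega⟩
    have hlenp : r ≤ len pre := by
      have : len ((x, g) :: pre) = x + 1 + len pre := rfl
      omega
    have hrest : ∀ u, u < r → wd pre u = h (pos up e (d - r + 1 + u)) := by
      intro u hu
      rw [← hw2 u, hall (x + 1 + u) (by omega)]
      congr 2
      omega
    have hprene : pre ≠ [] := by
      rintro rfl
      have : len ([] : Ctx) = 0 := rfl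
      omega
    have hnot : (5 * K + 1 - c.length) * r < d * K := by
      by_contra hle
      obtain ⟨u, hu, hne'⟩ := hv pre e h rest hcp hprene up r d hr (by omega) hlenp
        (not_lt.1 hle) hfit
      exact hne' (hrest u hu)
    obtain ⟨ha1, ha2⟩ := arith K c.length m d r (x + 1) hK hc (by omega) hmr hmd hdK
      (Or.inr hnot)
    by_cases h5 : d - r ≤ 5 * (x + 1)
    · obtain ⟨u, hu, hne'⟩ := hI e h hmem up (x + 1) (d - r) (by omega) le_rfl ha1 h5
      apply hne'
      have e2 := hall u (by omega)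
      rw [hw1 u (by omega)] at e2
      rw [e2]
      congr 2
      omega
    · obtain ⟨u, hu, hne'⟩ := hF pre e h rest hcp up (d - r)
        ⟨not_le.1 h5, ha2, r, hr, hlenp, by omega, by
          have : d - r + r = d := by omega
          rw [this]; exact hfit, by
          intro u hu
          exact hrest u hu⟩
      apply hne'
      have e2 := hall u (by omega)
      rw [hw1 u (by omega)] at e2
      rw [e2]
      congr 2
      omega

end Pool.Agent.H54P
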