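import Pool.Agent.Lib.H54P.D1
import Pool.Agent.Lib.H54P.D4

set_option autoImplicit false

namespace Pool.Agent.H54P

open Classical in
/-- the far ends to be avoided -/
private noncomputable def ends (n K : ℕ) (pre : Ctx) (e : ℕ) (h : ℕ → ℕ) (up : Bool) (m : ℕ) : Finset ℕ :=
  (Finset.range ((20 * K + 5) * m + 1)).filter (fun δ => (m ≤ δ ∧ δ ≤ 5 * m) ∨ Far n K pre e h up m δ)

private theorem ends_card (n K : ℕ) (hK : 1 ≤ K) (pre : Ctx) (e : ℕ) (he : e < n) (h : ℕ → ℕ)
    (hs : Spine n h) (up : Bool) (m : ℕ) (hm : 1 ≤ m) :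
    (ends n K pre e h up m).card ≤ 7 * m + (2 * Nat.log 2 K + 10) := by
  classical
  have h1 : ends n K pre e h up m ⊆ Finset.Icc m (5 * m) ∪
      (Finset.range ((20 * K + 5) * m + 1)).filter (fun δ => Far n K pre e h up m δ) := by
    intro δ hδ
    unfold ends at hδ
    rw [Finset.mem_filter] at hδ
    rw [Finset.mem_union, Finset.mem_Icc, Finset.mem_filter]
    rcases hδ with ⟨h2, h3 | h3⟩
    · exact Or.inl h3
    · exact Or.inr ⟨h2, h3⟩
  have h2 := far_card n K hK pre e he h hs up m hm
    ((Finset.range ((20 * K + 5) * m + 1)).filter (fun δ => Far n K pre e h up m δ))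
    (fun δ hδ => (Finset.mem_filter.1 hδ).2)
  have h3 := Finset.card_le_card h1
  have h4 := Finset.card_union_le (Finset.Icc m (5 * m))
    ((Finset.range ((20 * K + 5) * m + 1)).filter (fun δ => Far n K pre e h up m δ))
  rw [Nat.card_Icc] at h4
  omega

/-- the word read away from `e` with length `m` and far end at distance `δ` -/
private def wrd (e : ℕ) (h : ℕ → ℕ) (up : Bool) (m δ : ℕ) : List ℕ :=
  (List.range m).map (fun u => h (pos up e (δ - m + 1 + u)))

open Classical in
private noncomputable def FF (n K : ℕ) (c : Ctx) (m : ℕ) : Finset (List ℕ) :=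
  if m = 0 then ∅ else
    (Finset.univ : Finset (Fin c.length × Bool)).biUnion fun p =>
      (ends n K (c.take p.1) (c.get p.1).1 (c.get p.1).2 p.2 m).image
        (wrd (c.get p.1).1 (c.get p.1).2 p.2 m)

private theorem FF_card (n K : ℕ) (hK : 1 ≤ K) (c : Ctx) (hc : c.length + 1 ≤ K)
    (hs : ∀ q ∈ c, q.1 < n ∧ Spine n q.2) (m : ℕ) :
    (FF n K c m).card ≤ 14 * (K - 1) * m + 2 * (K - 1) * (2 * Nat.log 2 K + 10) := by
  classical
  unfold FF
  split_ifs with hm
  · simp
  · have hm1 : 1 ≤ m := Nat.one_le_iff_ne_zero.2 hm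
    have h1 : ∀ p ∈ (Finset.univ : Finset (Fin c.length × Bool)),
        ((ends n K (c.take p.1) (c.get p.1).1 (c.get p.1).2 p.2 m).image
          (wrd (c.get p.1).1 (c.get p.1).2 p.2 m)).card ≤ 7 * m + (2 * Nat.log 2 K + 10) := by
      intro p _
      have hq := hs (c.get p.1) (List.get_mem c p.1)
      exact Finset.card_image_le.trans
        (ends_card n K hK (c.take p.1) (c.get p.1).1 hq.1 (c.get p.1).2 hq.2 p.2 m hm1)
    have h2 := Finset.card_biUnion_le_card_mul (Finset.univ : Finset (Fin c.length × Bool)) _ _ h1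
    refine h2.trans ?_
    have h3 : (Finset.univ : Finset (Fin c.length × Bool)).card = c.length * 2 := by
      rw [Finset.card_univ, Fintype.card_prod, Fintype.card_fin, Fintype.card_bool]
    rw [h3]
    have h4 : c.length * 2 ≤ 2 * (K - 1) := by omega
    calc c.length * 2 * (7 * m + (2 * Nat.log 2 K + 10))
        ≤ 2 * (K - 1) * (7 * m + (2 * Nat.log 2 K + 10)) := Nat.mul_le_mul_right _ h4
      _ = 14 * (K - 1) * m + 2 * (K - 1) * (2 * Nat.log 2 K + 10) := by ring

private theorem mem_FF (n K : ℕ) (c : Ctx) (m : ℕ) (hm : 1 ≤ m) (j : Fin c.length) (e : ℕ) (h : ℕ → ℕ)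
    (hj : c.get j = (e, h)) (up : Bool) (δ : ℕ) (hδ : δ ∈ ends n K (c.take j) e h up m) :
    wrd e h up m δ ∈ FF n K c m := by
  classical
  unfold FF
  rw [if_neg (by omega)]
  rw [Finset.mem_biUnion]
  refine ⟨(j, up), Finset.mem_univ _, ?_⟩
  rw [Finset.mem_image]
  refine ⟨δ, ?_, ?_⟩
  · simp only [hj]
    exact hδ
  · simp only [hj]

/-- The step with the better constant.

Proof.  Apply `count2` with `A = 14 * (K - 1)`, `E = 2 * (K - 1) * (2 * Nat.log 2 K + 10)` and
`F m` = the set of the words `(List.range m).map (fun u => h (pos up e (δ - m + 1 + u)))` for the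
entries `(e, h) = c[j]`, `j < c.length`, `up`, and `δ` with `m ≤ δ ≤ 5 m` (at most `5 m` values) or
`Far n K (c.take j) e h up m δ` (at most `2 m + 2 log K + 10` values by `far_card`, filter
`Finset.range ((20K+5) m + 1)`): at most `2 (K-1) (7 m + 2 log K + 10)` words (`F 0 = ∅` or treat
`m = 0` separately: the bound for `m = 0` is `E`; simplest: `F m = ∅` for `m = 0`).
`5 + 4 A + 2 E = 5 + (K-1)(96 + 8 log K) ≤ K (96 + 8 log K)`.  Then `reduce2`
(`c = pre ++ (e,h) :: rest` means `pre = c.take j`, `c[j] = (e,h)` with `j = pre.length`). -/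
theorem step2 (n K : ℕ) (hK : 1 ≤ K) (c : Ctx) (hc : c.length + 1 ≤ K) (hv : Val n K c)
    (hs : ∀ q ∈ c, q.1 < n ∧ Spine n q.2) (L : ℕ → Finset ℕ)
    (hL : ∀ i, i < n → K * (96 + 8 * Nat.log 2 K) ≤ (L i).card) :
    ∃ g : ℕ → ℕ, (∀ i, i < n → g i ∈ L i) ∧ Spine n g ∧ ∀ x, x < n → Val n K ((x, g) :: c) := by
  have hL' : ∀ i, i < n → 5 + 4 * (14 * (K - 1)) + 2 * (2 * (K - 1) * (2 * Nat.log 2 K + 10)) ≤
      (L i).card := by
    intro i hi
    refine le_trans ?_ (hL i hi)
    obtain ⟨k, rfl⟩ : ∃ k, K = k + 1 := ⟨K - 1, by omega⟩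
    rw [Nat.add_sub_cancel]
    generalize Nat.log 2 (k + 1) = l
    have e : (k + 1) * (96 + 8 * l) =
        4 * (14 * k) + 2 * (2 * k * (2 * l + 10)) + (96 + 8 * l) := by ring
    rw [e]
    omega
  obtain ⟨g, hg1, hg2, hg3⟩ := count2 n (14 * (K - 1)) (2 * (K - 1) * (2 * Nat.log 2 K + 10)) L hL'
    (FF n K c) (FF_card n K hK c hc hs)
  refine ⟨g, hg1, hg2, fun x hx => reduce2 n K hK c hc hv g x ?_ ?_⟩
  · intro e h heh up m δ hm1 hmx hmδ hδ
    by_contra hcon
    push Not at hcon
    obtain ⟨j, hj⟩ := List.get_of_mem heh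
    have h1 : δ ∈ ends n K (c.take j) e h up m := by
      classical
      unfold ends
      rw [Finset.mem_filter, Finset.mem_range]
      refine ⟨?_, Or.inl ⟨hmδ, hδ⟩⟩
      have h2 : (20 * K + 5) * m = 20 * K * m + 5 * m := by ring
      rw [h2]
      have h3 : 0 ≤ 20 * K * m := Nat.zero_le _
      omega
    have h2 := mem_FF n K c m hm1 j e h hj up δ h1
    apply hg3 m x hm1 hmx hx
    have h3 : (List.range m).map (fun u => g (x - u)) = wrd e h up m δ := by
      unfold wrd
      apply List.map_congr_left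
      intro u hu
      exact hcon u (List.mem_range.1 hu)
    rw [h3]
    exact h2
  · intro pre e h rest hce up δ hfar
    by_contra hcon
    push Not at hcon
    have hlt : pre.length < c.length := by
      rw [hce, List.length_append, List.length_cons]
      omega
    have hj : c.get ⟨pre.length, hlt⟩ = (e, h) := by
      subst hce
      simp
    have htake : c.take pre.length = pre := by
      subst hce
      simp
    have h1 : δ ∈ ends n K (c.take (⟨pre.length, hlt⟩ : Fin c.length)) e h up (x + 1) := by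
      classical
      unfold ends
      rw [Finset.mem_filter, Finset.mem_range]
      have h2 := hfar.2.1
      refine ⟨by omega, Or.inr ?_⟩
      show Far n K (c.take pre.length) e h up (x + 1) δ
      rw [htake]
      exact hfar
    have h2 := mem_FF n K c (x + 1) (by omega) ⟨pre.length, hlt⟩ e h hj up δ h1
    apply hg3 (x + 1) x (by omega) le_rfl hx
    have h3 : (List.range (x + 1)).map (fun u => g (x - u)) = wrd e h up (x + 1) δ := by
      unfold wrd
      apply List.map_congr_left
      intro u hu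
      exact hcon u (List.mem_range.1 hu)
    rw [h3]
    exact h2

end Pool.Agent.H54P
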