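import Pool.Agent.Lib.H54P.D5

set_option autoImplicit false

namespace Pool.Agent.H54P

/-- The recursion over the addresses: the context above the path and its word. -/
private def G6 (s : Ctx → (ℕ → Finset ℕ) → ℕ → ℕ) (L : List (ℕ × ℕ) → ℕ → Finset ℕ) :
    List (ℕ × ℕ) → Ctx × (ℕ → ℕ)
  | [] => ([], s [] (L []))
  | q :: id => ((q.1, (G6 s L id).2) :: (G6 s L id).1,
      s ((q.1, (G6 s L id).2) :: (G6 s L id).1) (L (q :: id)))

private lemma cx_eq6 (s : Ctx → (ℕ → Finset ℕ) → ℕ → ℕ) (L : List (ℕ × ℕ) → ℕ → Finset ℕ) :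
    ∀ id, cx (fun i => (G6 s L i).2) id = (G6 s L id).1
  | [] => rfl
  | (e, b) :: id => by
      show (e, (G6 s L id).2) :: cx (fun i => (G6 s L i).2) id = _
      rw [cx_eq6 s L id]
      rfl

private lemma cx_len6 (f : List (ℕ × ℕ) → ℕ → ℕ) : ∀ id, (cx f id).length = id.length
  | [] => rfl
  | (e, b) :: id => by
      show (cx f id).length + 1 = id.length + 1
      rw [cx_len6 f id]

private lemma word_eq6 (s : Ctx → (ℕ → Finset ℕ) → ℕ → ℕ) (L : List (ℕ × ℕ) → ℕ → Finset ℕ) :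
    ∀ id, (G6 s L id).2 = s (cx (fun i => (G6 s L i).2) id) (L id)
  | [] => rfl
  | (e, b) :: id => by
      rw [cx_eq6 s L ((e, b) :: id)]
      rfl

/-- The colouring of the universal tree with the better constant (same proof as `colour` in A4;
the contexts also satisfy `∀ q ∈ c, q.1 < n ∧ Spine n q.2`). -/
theorem colour2 (n K : ℕ) (hK : 1 ≤ K) (L : List (ℕ × ℕ) → ℕ → Finset ℕ)
    (hL : ∀ id x, K * (96 + 8 * Nat.log 2 K) ≤ (L id x).card) :
    ∃ f : List (ℕ × ℕ) → ℕ → ℕ, Good n K f ∧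
      ∀ id x, id.length < K → (∀ q ∈ id, q.1 < n) → x < n → f id x ∈ L id x := by
  classical
  obtain ⟨s, hs⟩ : ∃ s : Ctx → (ℕ → Finset ℕ) → ℕ → ℕ, ∀ (c : Ctx) (L' : ℕ → Finset ℕ),
      c.length + 1 ≤ K → Val n K c → (∀ q ∈ c, q.1 < n ∧ Spine n q.2) →
      (∀ i, i < n → K * (96 + 8 * Nat.log 2 K) ≤ (L' i).card) →
      (∀ i, i < n → s c L' i ∈ L' i) ∧ Spine n (s c L') ∧
        ∀ x, x < n → Val n K ((x, s c L') :: c) := by
    have key : ∀ (c : Ctx) (L' : ℕ → Finset ℕ), ∃ g : ℕ → ℕ,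
        c.length + 1 ≤ K → Val n K c → (∀ q ∈ c, q.1 < n ∧ Spine n q.2) →
        (∀ i, i < n → K * (96 + 8 * Nat.log 2 K) ≤ (L' i).card) →
        (∀ i, i < n → g i ∈ L' i) ∧ Spine n g ∧ ∀ x, x < n → Val n K ((x, g) :: c) := by
      intro c L'
      by_cases h : c.length + 1 ≤ K ∧ Val n K c ∧ (∀ q ∈ c, q.1 < n ∧ Spine n q.2) ∧
          (∀ i, i < n → K * (96 + 8 * Nat.log 2 K) ≤ (L' i).card)
      · obtain ⟨g, hg⟩ := step2 n K hK c h.1 h.2.1 h.2.2.1 L' h.2.2.2
        exact ⟨g, fun _ _ _ _ => hg⟩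
      · exact ⟨fun _ => 0, fun h1 h2 h3 h4 => absurd ⟨h1, h2, h3, h4⟩ h⟩
    choose s hs using key
    exact ⟨s, hs⟩
  have hval0 : Val n K [] := by
    intro pre e h rest he
    exact absurd he.symm (by simp)
  have hv : ∀ id : List (ℕ × ℕ), id.length < K → (∀ q ∈ id, q.1 < n) →
      Val n K (cx (fun i => (G6 s L i).2) id) ∧
        ∀ q ∈ cx (fun i => (G6 s L i).2) id, q.1 < n ∧ Spine n q.2 := by
    intro id
    induction id with
    | nil =>
      intro _ _
      refine ⟨hval0, fun q hq => ?_⟩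
      exact absurd hq (by show q ∉ ([] : Ctx); simp)
    | cons q id ih =>
      obtain ⟨e, b⟩ := q
      intro h1 h2
      have h1' : id.length < K := by
        have : ((e, b) :: id).length = id.length + 1 := rfl
        omega
      have h2' : ∀ q ∈ id, q.1 < n := fun q hq => h2 q (List.mem_cons_of_mem _ hq)
      have he : e < n := h2 (e, b) List.mem_cons_self
      have h3 := hs (cx (fun i => (G6 s L i).2) id) (L id) (by rw [cx_len6]; omega)
        (ih h1' h2').1 (ih h1' h2').2 (fun i _ => hL id i)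
      rw [← word_eq6 s L id] at h3
      refine ⟨h3.2.2 e he, fun q hq => ?_⟩
      have hq' : q ∈ (e, (G6 s L id).2) :: cx (fun i => (G6 s L i).2) id := hq
      rcases List.mem_cons.1 hq' with rfl | hq'
      · exact ⟨he, h3.2.1⟩
      · exact (ih h1' h2').2 q hq'
  refine ⟨fun id => (G6 s L id).2, ?_, ?_⟩
  · intro id h1 h2
    have h3 := hs (cx (fun i => (G6 s L i).2) id) (L id) (by rw [cx_len6]; omega)
        (hv id h1 h2).1 (hv id h1 h2).2 (fun i _ => hL id i)
    rw [← word_eq6 s L id] at h3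
    exact ⟨h3.2.1, h3.2.2⟩
  · intro id x h1 h2 hx
    have h3 := hs (cx (fun i => (G6 s L i).2) id) (L id) (by rw [cx_len6]; omega)
        (hv id h1 h2).1 (hv id h1 h2).2 (fun i _ => hL id i)
    rw [← word_eq6 s L id] at h3
    exact h3.1 x hx

end Pool.Agent.H54P
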