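import Mathlib

/-!
# Definitions: trees of bounded path-width, nonrepetitive list colouring
-/

set_option autoImplicit false

namespace Pool.Agent.H54P

/-- The threshold: a match at distance `t` has length less than `T t` (at most `t / 2`). -/
def T (t : ℕ) : ℕ := t / 2 + 1

/-- The word `g 0, ..., g (n-1)` has no match of length `T t` at distance `t`. -/
def Spine (n : ℕ) (g : ℕ → ℕ) : Prop :=
  ∀ t, 1 ≤ t → ∀ i, i + T t + t ≤ n → ∃ u, u < T t ∧ g (i + u) ≠ g (i + u + t)

/-- The position at distance `d` from the position `e` (`e` itself has distance 1): upwards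
(towards 0) if `up`, downwards otherwise. -/
def pos (up : Bool) (e d : ℕ) : ℕ := if up then e + 1 - d else e + d - 1

/-- The position `pos up e d` exists in a path with the positions `0, ..., n-1`. -/
def Fits (n : ℕ) (up : Bool) (e d : ℕ) : Prop := if up then d ≤ e + 1 else e + d ≤ n

/-- A context: the heavy paths met by the upward path of a vertex, the lowest one first; each with
the position where the upward path meets it first and with its word (colours by position). -/
abbrev Ctx := List (ℕ × (ℕ → ℕ))

/-- The letters read on the upward path. -/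
def wd : Ctx → ℕ → ℕ
  | [], _ => 0
  | (e, g) :: c, u => if u ≤ e then g (e - u) else wd c (u - e - 1)

/-- The number of letters on the upward path. -/
def len : Ctx → ℕ
  | [] => 0
  | (e, _) :: c => e + 1 + len c

/-- The condition for a vertex with the context `c` (so its depth is `c.length - 1`): no initial
stretch of length `m` of its upward word which ends before the attachment `e` on an ancestor path
`h` is equal to the factor of `h` read away from `e` with length `m` and far end at distance `d`,
for `m ≤ d ≤ (5 - depth / K) m`. -/
def Val (n K : ℕ) (c : Ctx) : Prop :=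
  ∀ (pre : Ctx) (e : ℕ) (h : ℕ → ℕ) (rest : Ctx), c = pre ++ (e, h) :: rest → pre ≠ [] →
    ∀ (up : Bool) (m d : ℕ), 1 ≤ m → m ≤ d → m ≤ len pre →
      d * K ≤ (5 * K + 1 - c.length) * m → Fits n up e d →
        ∃ u, u < m ∧ wd pre u ≠ h (pos up e (d - m + 1 + u))

/-- A vertex of the universal tree: the heavy path `a.1` (the list of the attachments
`(position, branch)`, lowest first) and the position `a.2` on it. -/
abbrev Addr := List (ℕ × ℕ) × ℕ

/-- `b` is the parent of `a`. -/
def Par (a b : Addr) : Prop :=
  (∃ id x, a = (id, x + 1) ∧ b = (id, x)) ∨ (∃ e c id, a = ((e, c) :: id, 0) ∧ b = (id, e))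

/-- The context above the heavy path `id` for the colouring `f`. -/
def cx (f : List (ℕ × ℕ) → ℕ → ℕ) : List (ℕ × ℕ) → Ctx
  | [] => []
  | (e, _) :: id => (e, f id) :: cx f id

/-- The address lies in the truncated universal tree. -/
def Ok (n K : ℕ) (a : Addr) : Prop := a.1.length < K ∧ (∀ q ∈ a.1, q.1 < n) ∧ a.2 < n

/-- The invariant of the colouring. -/
def Good (n K : ℕ) (f : List (ℕ × ℕ) → ℕ → ℕ) : Prop :=
  ∀ id : List (ℕ × ℕ), id.length < K → (∀ q ∈ id, q.1 < n) →
    Spine n (f id) ∧ ∀ x, x < n → Val n K ((x, f id) :: cx f id)

end Pool.Agent.H54P
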