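import Pool.Agent.Lib.H54P.D3

set_option autoImplicit false

namespace Pool.Agent.H54P

/-- The number of places (ancestor path `j`, direction, distance `d = t + 1 ≤ 20 K + 6`) near the
attachments of the context `c` with the colour `γ`. -/
def mult (K : ℕ) (c : Ctx) (γ : ℕ) : ℕ :=
  (((Finset.univ : Finset (Fin c.length × Bool)) ×ˢ Finset.range (20 * K + 6)).filter
    (fun t => (c.get t.1.1).2 (pos t.1.2 (c.get t.1.1).1 (t.2 + 1)) = γ)).card

/-- There is a finset containing all colours of multiplicity at least `6 K`, with at most `7 K`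
elements.

Proof.  The image of all places under the colour, filtered by `6 K ≤ mult K c γ`.  By double
counting (`Finset.card_nsmul_le_sum` / `Finset.sum_card_fiberwise_eq_card_filter`) its card times
`6 K` is at most the number `c.length * 2 * (20 K + 6) ≤ (K-1)(40 K + 12) ≤ 42 K^2` of places. -/
theorem popular (K : ℕ) (hK : 1 ≤ K) (c : Ctx) (hc : c.length + 1 ≤ K) :
    ∃ S : Finset ℕ, S.card ≤ 7 * K ∧ ∀ γ, 6 * K ≤ mult K c γ → γ ∈ S := by
  classical
  have hmult : ∀ γ, mult K c γ = (((Finset.univ : Finset (Fin c.length × Bool)) ×ˢ Finset.range (20 * K + 6)).filter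
    (fun t => (c.get t.1.1).2 (pos t.1.2 (c.get t.1.1).1 (t.2 + 1)) = γ)).card := fun γ => rfl
  generalize hP : ((Finset.univ : Finset (Fin c.length × Bool)) ×ˢ Finset.range (20 * K + 6)) = P at hmult
  generalize hg : (fun t : (Fin c.length × Bool) × ℕ =>
    (c.get t.1.1).2 (pos t.1.2 (c.get t.1.1).1 (t.2 + 1))) = g
  have hm : ∀ γ, mult K c γ = (P.filter fun t => g t = γ).card := by
    intro γ
    rw [hmult, ← hg]
  refine ⟨(P.image g).filter fun γ => 6 * K ≤ mult K c γ, ?_, ?_⟩
  · have h1 : ((P.image g).filter fun γ => 6 * K ≤ mult K c γ).card * (6 * K) ≤ P.card := by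
      rw [Finset.card_eq_sum_card_image g P]
      calc ((P.image g).filter fun γ => 6 * K ≤ mult K c γ).card * (6 * K)
          ≤ ∑ γ ∈ (P.image g).filter (fun γ => 6 * K ≤ mult K c γ), (P.filter fun t => g t = γ).card := by
            rw [← smul_eq_mul]
            refine Finset.card_nsmul_le_sum _ _ _ fun γ hγ => ?_
            rw [← hm]
            exact (Finset.mem_filter.1 hγ).2
        _ ≤ ∑ γ ∈ P.image g, (P.filter fun t => g t = γ).card :=
            Finset.sum_le_sum_of_subset (Finset.filter_subset _ _)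
    have h2 : P.card = c.length * 2 * (20 * K + 6) := by
      rw [← hP, Finset.card_product, Finset.card_univ, Fintype.card_prod, Fintype.card_fin, Fintype.card_bool,
        Finset.card_range]
    rw [h2] at h1
    by_contra h3
    push Not at h3
    have h4 : (7 * K + 1) * (6 * K) ≤ c.length * 2 * (20 * K + 6) :=
      le_trans (Nat.mul_le_mul_right _ h3) h1
    have h5 : c.length * 2 * (20 * K + 6) ≤ (K - 1) * 2 * (20 * K + 6) :=
      Nat.mul_le_mul_right _ (Nat.mul_le_mul_right _ (by omega))
    obtain ⟨k, rfl⟩ : ∃ k, K = k + 1 := ⟨K - 1, by omega⟩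
    rw [Nat.add_sub_cancel] at h5
    nlinarith
  · intro γ hγ
    refine Finset.mem_filter.2 ⟨?_, hγ⟩
    have h6 : 0 < (P.filter fun t => g t = γ).card := by
      rw [← hm]
      omega
    obtain ⟨t, ht⟩ := Finset.card_pos.1 h6
    obtain ⟨ht1, ht2⟩ := Finset.mem_filter.1 ht
    exact Finset.mem_image.2 ⟨t, ht1, ht2⟩

/-- The colours which would continue a far match at the top of a new heavy path: at most `6 K`.

Proof.  Let `c = (e0, h0) :: c'`.  For `j = 0` the prefix `c.take 0 = []` has `len = 0`: no `Far`.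
For `j = i + 1` and `Far n K (c.take j) e h up 1 δ` (`(e, h) = c.get j = c'.get i`): the match
has `r ≥ 1` letters and `wd (c.take j) 0 = h0 e0`, so `h (pos up e (δ + 1)) = h0 e0`,
`δ + 1 ≤ 20 K + 6`: the triple `(i, up, δ)` is counted in `mult K c' (h0 e0) < 6 K`.  The colour
is determined by the triple. -/
theorem far_one (n K : ℕ) (hK : 1 ≤ K) (c : Ctx)
    (hnp : ∀ e0 h0 c', c = (e0, h0) :: c' → mult K c' (h0 e0) < 6 * K) :
    ∃ S : Finset ℕ, S.card ≤ 6 * K ∧ ∀ pre e h rest, c = pre ++ (e, h) :: rest →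
      ∀ (up : Bool) (δ : ℕ), Far n K pre e h up 1 δ → h (pos up e δ) ∈ S := by
  classical
  rcases c with _ | ⟨⟨e0, h0⟩, c'⟩
  · refine ⟨∅, by simp, ?_⟩
    intro pre e h rest hc
    exact absurd hc (by simp)
  · have hlt := hnp e0 h0 c' rfl
    refine ⟨(((Finset.univ : Finset (Fin c'.length × Bool)) ×ˢ Finset.range (20 * K + 6)).filter
      (fun t => (c'.get t.1.1).2 (pos t.1.2 (c'.get t.1.1).1 (t.2 + 1)) = h0 e0)).image
      (fun t => (c'.get t.1.1).2 (pos t.1.2 (c'.get t.1.1).1 t.2)), ?_, ?_⟩
    · exact le_trans Finset.card_image_le (le_of_lt hlt)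
    · intro pre e h rest hc up δ hF
      obtain ⟨a1, a2, r, r1, r2, r3, r4, r5⟩ := hF
      rcases pre with _ | ⟨⟨e1, h1⟩, pre'⟩
      · have h7 : len [] = 0 := rfl
        omega
      · rw [List.cons_append, List.cons.injEq] at hc
        obtain ⟨hc1, hc2⟩ := hc
        obtain ⟨rfl, rfl⟩ := Prod.mk.inj hc1
        subst hc2
        have h8 := r5 0 (by omega)
        have h9 : wd ((e0, h0) :: pre') 0 = h0 e0 := by
          simp [wd]
        rw [h9, Nat.add_zero] at h8
        have hi : pre'.length < (pre' ++ (e, h) :: rest).length := by simp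
        have hget : (pre' ++ (e, h) :: rest).get ⟨pre'.length, hi⟩ = (e, h) := by simp
        refine Finset.mem_image.2 ⟨((⟨pre'.length, hi⟩, up), δ), ?_, ?_⟩
        · refine Finset.mem_filter.2 ⟨Finset.mem_product.2 ⟨Finset.mem_univ _, Finset.mem_range.2 (by omega)⟩, ?_⟩
          show ((pre' ++ (e, h) :: rest).get ⟨pre'.length, hi⟩).2
            (pos up ((pre' ++ (e, h) :: rest).get ⟨pre'.length, hi⟩).1 (δ + 1)) = h0 e0
          rw [hget]
          exact h8.symm
        · show ((pre' ++ (e, h) :: rest).get ⟨pre'.length, hi⟩).2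
            (pos up ((pre' ++ (e, h) :: rest).get ⟨pre'.length, hi⟩).1 δ) = h (pos up e δ)
          rw [hget]

end Pool.Agent.H54P
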