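import Pool.Agent.Lib.H54P.D4
import Pool.Agent.Lib.H54P.E1
import Pool.Agent.Lib.H54P.E2

set_option autoImplicit false

namespace Pool.Agent.H54P

open Classical in
/-- the far ends to be avoided -/
private noncomputable def e3_ends (n K : ℕ) (pre : Ctx) (e : ℕ) (h : ℕ → ℕ) (up : Bool) (m : ℕ) : Finset ℕ :=
  (Finset.range ((20 * K + 5) * m + 1)).filter (fun δ => (m ≤ δ ∧ δ ≤ 5 * m) ∨ Far n K pre e h up m δ)

private theorem e3_ends_card (n K : ℕ) (hK : 1 ≤ K) (pre : Ctx) (e : ℕ) (he : e < n) (h : ℕ → ℕ)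
    (hs : Spine n h) (up : Bool) (m : ℕ) (hm : 1 ≤ m) :
    (e3_ends n K pre e h up m).card ≤ 7 * m + (2 * Nat.log 2 K + 10) := by
  classical
  have h1 : e3_ends n K pre e h up m ⊆ Finset.Icc m (5 * m) ∪
      (Finset.range ((20 * K + 5) * m + 1)).filter (fun δ => Far n K pre e h up m δ) := by
    intro δ hδ
    unfold e3_ends at hδ
    rw [Finset.mem_filter] at hδ
    rw [Finset.mem_union, Finset.mem_Icc, Finset.mem_filter]
    rcases hδ with ⟨h2, h3 | h3⟩
    · exact Or.inl h3
    · exact Or.inr ⟨h2, h3⟩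
  have h2 := far_card n K hK pre e he h hs up m hm
    ((Finset.range ((20 * K + 5) * m + 1)).filter (fun δ => Far n K pre e h up m δ))
    (fun δ hδ => (Finset.mem_filter.1 hδ).2)
  have h3 := Finset.card_le_card h1
  have h4 := Finset.card_union_le (Finset.Icc m (5 * m))
    ((Finset.range ((20 * K + 5) * m + 1)).filter (fun δ => Far n K pre e h up m δ))
  rw [Nat.card_Icc] at h4
  omega

/-- the word read away from `e` with length `m` and far end at distance `δ` -/
private def e3_wrd (e : ℕ) (h : ℕ → ℕ) (up : Bool) (m δ : ℕ) : List ℕ :=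
  (List.range m).map (fun u => h (pos up e (δ - m + 1 + u)))

open Classical in
private noncomputable def e3_FF (n K : ℕ) (c : Ctx) (m : ℕ) : Finset (List ℕ) :=
  if m = 0 then ∅ else
    (Finset.univ : Finset (Fin c.length × Bool)).biUnion fun p =>
      (e3_ends n K (c.take p.1) (c.get p.1).1 (c.get p.1).2 p.2 m).image
        (e3_wrd (c.get p.1).1 (c.get p.1).2 p.2 m)

private theorem e3_FF_card (n K : ℕ) (hK : 1 ≤ K) (c : Ctx) (hc : c.length + 1 ≤ K)
    (hs : ∀ q ∈ c, q.1 < n ∧ Spine n q.2) (m : ℕ) :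
    (e3_FF n K c m).card ≤ 14 * (K - 1) * m + 2 * (K - 1) * (2 * Nat.log 2 K + 10) := by
  classical
  unfold e3_FF
  split_ifs with hm
  · simp
  · have hm1 : 1 ≤ m := Nat.one_le_iff_ne_zero.2 hm
    have h1 : ∀ p ∈ (Finset.univ : Finset (Fin c.length × Bool)),
        ((e3_ends n K (c.take p.1) (c.get p.1).1 (c.get p.1).2 p.2 m).image
          (e3_wrd (c.get p.1).1 (c.get p.1).2 p.2 m)).card ≤ 7 * m + (2 * Nat.log 2 K + 10) := by
      intro p _
      have hq := hs (c.get p.1) (List.get_mem c p.1)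
      exact Finset.card_image_le.trans
        (e3_ends_card n K hK (c.take p.1) (c.get p.1).1 hq.1 (c.get p.1).2 hq.2 p.2 m hm1)
    have h2 := Finset.card_biUnion_le_card_mul (Finset.univ : Finset (Fin c.length × Bool)) _ _ h1
    refine h2.trans ?_
    have h3 : (Finset.univ : Finset (Fin c.length × Bool)).card = c.length * 2 := by
      rw [Finset.card_univ, Fintype.card_prod, Fintype.card_fin, Fintype.card_bool]
    rw [h3]
    have h4 : c.length * 2 ≤ 2 * (K - 1) := by omega
    calc c.length * 2 * (7 * m + (2 * Nat.log 2 K + 10))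
        ≤ 2 * (K - 1) * (7 * m + (2 * Nat.log 2 K + 10)) := Nat.mul_le_mul_right _ h4
      _ = 14 * (K - 1) * m + 2 * (K - 1) * (2 * Nat.log 2 K + 10) := by ring

private theorem e3_mem_FF (n K : ℕ) (c : Ctx) (m : ℕ) (hm : 1 ≤ m) (j : Fin c.length) (e : ℕ) (h : ℕ → ℕ)
    (hj : c.get j = (e, h)) (up : Bool) (δ : ℕ) (hδ : δ ∈ e3_ends n K (c.take j) e h up m) :
    e3_wrd e h up m δ ∈ e3_FF n K c m := by
  classical
  unfold e3_FF
  rw [if_neg (by omega)]
  rw [Finset.mem_biUnion]
  refine ⟨(j, up), Finset.mem_univ _, ?_⟩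
  rw [Finset.mem_image]
  refine ⟨δ, ?_, ?_⟩
  · simp only [hj]
    exact hδ
  · simp only [hj]

open Classical in
/-- the letters at distance `1, ..., 5` from the attachments -/
private noncomputable def e3_near (c : Ctx) : Finset ℕ :=
  (Finset.univ : Finset (Fin c.length × Bool)).biUnion fun p =>
    (Finset.Icc 1 5).image (fun δ => (c.get p.1).2 (pos p.2 (c.get p.1).1 δ))

private theorem e3_near_card (K : ℕ) (hK : 1 ≤ K) (c : Ctx) (hc : c.length + 1 ≤ K) :
    (e3_near c).card ≤ 10 * (K - 1) := by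
  classical
  unfold e3_near
  have h1 : ∀ p ∈ (Finset.univ : Finset (Fin c.length × Bool)),
      ((Finset.Icc 1 5).image (fun δ => (c.get p.1).2 (pos p.2 (c.get p.1).1 δ))).card ≤ 5 := by
    intro p _
    refine Finset.card_image_le.trans ?_
    rw [Nat.card_Icc]
  have h2 := Finset.card_biUnion_le_card_mul (Finset.univ : Finset (Fin c.length × Bool)) _ _ h1
  refine h2.trans ?_
  have h3 : (Finset.univ : Finset (Fin c.length × Bool)).card = c.length * 2 := by
    rw [Finset.card_univ, Fintype.card_prod, Fintype.card_fin, Fintype.card_bool]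
  rw [h3]
  omega

private theorem e3_mem_near (c : Ctx) (e : ℕ) (h : ℕ → ℕ) (hm : (e, h) ∈ c) (up : Bool) (δ : ℕ)
    (h1 : 1 ≤ δ) (h5 : δ ≤ 5) : h (pos up e δ) ∈ e3_near c := by
  classical
  unfold e3_near
  obtain ⟨j, hj⟩ := List.get_of_mem hm
  rw [Finset.mem_biUnion]
  refine ⟨(j, up), Finset.mem_univ _, ?_⟩
  rw [Finset.mem_image]
  refine ⟨δ, Finset.mem_Icc.2 ⟨h1, h5⟩, ?_⟩
  simp only [hj]

private theorem e3_log (K : ℕ) (hK : 1 ≤ K) : 2 * Nat.log 2 K ≤ K := by
  have h1 : 2 ^ Nat.log 2 K ≤ K := Nat.pow_log_le_self 2 (by omega)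
  have h2 : ∀ l : ℕ, 2 * l ≤ 2 ^ l := by
    intro l
    induction l with
    | zero => simp
    | succ l ih =>
      rcases Nat.eq_zero_or_pos l with h | h
      · subst h; simp
      · rw [pow_succ]
        omega
  exact (h2 _).trans h1

private theorem e3_bound (K : ℕ) (hK : 1 ≤ K) :
    (K + 3 + 1 + (23 * K - 10)) * (K + 3 - 1) ^ 2 + 2 * (K + 3 - 1) +
      14 * (K - 1) * (2 * (K + 3) - 1) + 2 * (K - 1) * (2 * Nat.log 2 K + 10) * (K + 3 - 1) ≤
      (26 * K + 42) * (K + 3 - 1) ^ 2 := by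
  have hl := e3_log K hK
  obtain ⟨k, rfl⟩ : ∃ k, K = k + 1 := ⟨K - 1, by omega⟩
  generalize Nat.log 2 (k + 1) = l at hl
  have e1 : k + 1 + 3 + 1 + (23 * (k + 1) - 10) = 24 * k + 18 := by omega
  have e2 : k + 1 + 3 - 1 = k + 3 := by omega
  have e3 : k + 1 - 1 = k := by omega
  have e4 : 2 * (k + 1 + 3) - 1 = 2 * k + 7 := by omega
  rw [e1, e2, e3, e4]
  have h1 : 2 * k * (2 * l + 10) * (k + 3) ≤ 2 * k * (k + 1 + 10) * (k + 3) := by
    apply Nat.mul_le_mul_right
    apply Nat.mul_le_mul_left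
    omega
  nlinarith [h1, Nat.zero_le k, Nat.zero_le (k ^ 2), Nat.zero_le (k ^ 3)]

/-- The step with the linear constant.

Proof (adapt D5).  Apply `countB` with `b = K + 3`, `N1 = 23 * K - 10`, `A = 14 * (K - 1)`,
`E = 2 * (K - 1) * (2 * Nat.log 2 K + 10)`.  `F m` for `m ≥ 2` as in D5 (at most `A m + E` words);
`F 1` = the one-letter words with the letters `h (pos up e δ)`, `(e, h) ∈ c`, `1 ≤ δ ≤ 5` (at most
`10 (K - 1)`), the letters of the set of `popular` (at most `7 K`) and of the set of `far_one` (at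
most `6 K`): together `23 K - 10`; `F 0 = ∅`.  The inequality of `countB`:
`(24 K - 6)(K+2)^2 + 2 (K+2) + 14 (K-1)(2 K + 5) + 2 (K-1)(2 log K + 10)(K+2)
≤ (26 K + 42)(K+2)^2`, because `4 log K ≤ 2 K`, `K - 1 ≤ K + 2` and
`14 (K-1)(2K+5) + 2 (K+2) ≤ 28 (K+2)^2`.
Then `reduce2`: `hI` for `m = 1` from the first part of `F 1`, for `m ≥ 2` from `F m`; `hF` for
`x = 0` (`m = 1`) from `far_one`, otherwise from `F (x+1)`; and `mult K c (g x) < 6 * K` since
`[g x] ∉ F 1`. -/
theorem step3 (n K : ℕ) (hK : 1 ≤ K) (c : Ctx) (hc : c.length + 1 ≤ K) (hv : Val n K c)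
    (hs : ∀ q ∈ c, q.1 < n ∧ Spine n q.2)
    (hnp : ∀ e0 h0 c', c = (e0, h0) :: c' → mult K c' (h0 e0) < 6 * K) (L : ℕ → Finset ℕ)
    (hL : ∀ i, i < n → 26 * K + 42 ≤ (L i).card) :
    ∃ g : ℕ → ℕ, (∀ i, i < n → g i ∈ L i) ∧ Spine n g ∧
      ∀ x, x < n → Val n K ((x, g) :: c) ∧ mult K c (g x) < 6 * K := by
  classical
  obtain ⟨S1, hS1, hpop⟩ := popular K hK c hc
  obtain ⟨S2, hS2, hfar1⟩ := far_one n K hK c hnp
  obtain ⟨S, hS⟩ : ∃ S : Finset ℕ, S = e3_near c ∪ (S1 ∪ S2) := ⟨_, rfl⟩
  obtain ⟨F, hF⟩ : ∃ F : ℕ → Finset (List ℕ), F = fun m =>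
      if m = 1 then S.image (fun a => [a]) else e3_FF n K c m := ⟨_, rfl⟩
  have hF1 : F 1 = S.image (fun a => [a]) := by
    rw [hF]
    simp
  have hFm : ∀ m, 2 ≤ m → F m = e3_FF n K c m := by
    intro m hm
    rw [hF]
    simp only
    rw [if_neg (by omega)]
  have hcard1 : (F 1).card ≤ 23 * K - 10 := by
    rw [hF1]
    refine Finset.card_image_le.trans ?_
    rw [hS]
    have h1 := Finset.card_union_le (e3_near c) (S1 ∪ S2)
    have h2 := Finset.card_union_le S1 S2
    have h3 := e3_near_card K hK c hc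
    omega
  have hcardm : ∀ m, 2 ≤ m → (F m).card ≤
      14 * (K - 1) * m + 2 * (K - 1) * (2 * Nat.log 2 K + 10) := by
    intro m hm
    rw [hFm m hm]
    exact e3_FF_card n K hK c hc hs m
  obtain ⟨g, hg1, hg2, hg3⟩ := countB n (K + 3) (23 * K - 10) (14 * (K - 1))
    (2 * (K - 1) * (2 * Nat.log 2 K + 10)) (by omega) L
    (fun i hi => (e3_bound K hK).trans (Nat.mul_le_mul_right _ (hL i hi))) F hcard1 hcardm
  have hone : ∀ x, x < n → g x ∉ S := by
    intro x hx hmem
    apply hg3 1 x le_rfl (by omega) hx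
    rw [hF1, Finset.mem_image]
    exact ⟨g x, hmem, by simp⟩
  refine ⟨g, hg1, hg2, fun x hx => ⟨reduce2 n K hK c hc hv g x ?_ ?_, ?_⟩⟩
  · intro e h heh up m δ hm1 hmx hmδ hδ
    by_contra hcon
    push Not at hcon
    rcases Nat.lt_or_ge m 2 with hm2 | hm2
    · have hm : m = 1 := by omega
      subst hm
      have h1 := hcon 0 (by omega)
      have h2 : δ - 1 + 1 + 0 = δ := by omega
      rw [h2, Nat.sub_zero] at h1
      apply hone x hx
      rw [hS, h1]
      exact Finset.mem_union_left _ (e3_mem_near c e h heh up δ hmδ (by omega))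
    · obtain ⟨j, hj⟩ := List.get_of_mem heh
      have h1 : δ ∈ e3_ends n K (c.take j) e h up m := by
        unfold e3_ends
        rw [Finset.mem_filter, Finset.mem_range]
        refine ⟨?_, Or.inl ⟨hmδ, hδ⟩⟩
        have h2 : (20 * K + 5) * m = 20 * K * m + 5 * m := by ring
        rw [h2]
        have h3 : 0 ≤ 20 * K * m := Nat.zero_le _
        omega
      have h2 := e3_mem_FF n K c m hm1 j e h hj up δ h1
      apply hg3 m x hm1 hmx hx
      have h3 : (List.range m).map (fun u => g (x - u)) = e3_wrd e h up m δ := by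
        unfold e3_wrd
        apply List.map_congr_left
        intro u hu
        exact hcon u (List.mem_range.1 hu)
      rw [h3, hFm m hm2]
      exact h2
  · intro pre e h rest hce up δ hfar
    by_contra hcon
    push Not at hcon
    rcases Nat.eq_zero_or_pos x with hx0 | hx0
    · subst hx0
      have h1 := hcon 0 (by omega)
      have h2 := hfar.1
      have h3 : δ - (0 + 1) + 1 + 0 = δ := by omega
      rw [h3, Nat.sub_zero] at h1
      apply hone 0 hx
      rw [hS, h1]
      exact Finset.mem_union_right _ (Finset.mem_union_right _ (hfar1 pre e h rest hce up δ hfar))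
    · have hlt : pre.length < c.length := by
        rw [hce, List.length_append, List.length_cons]
        omega
      have hj : c.get ⟨pre.length, hlt⟩ = (e, h) := by
        subst hce
        simp
      have htake : c.take pre.length = pre := by
        subst hce
        simp
      have h1 : δ ∈ e3_ends n K (c.take (⟨pre.length, hlt⟩ : Fin c.length)) e h up (x + 1) := by
        unfold e3_ends
        rw [Finset.mem_filter, Finset.mem_range]
        have h2 := hfar.2.1
        refine ⟨by omega, Or.inr ?_⟩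
        show Far n K (c.take pre.length) e h up (x + 1) δ
        rw [htake]
        exact hfar
      have h2 := e3_mem_FF n K c (x + 1) (by omega) ⟨pre.length, hlt⟩ e h hj up δ h1
      apply hg3 (x + 1) x (by omega) le_rfl hx
      have h3 : (List.range (x + 1)).map (fun u => g (x - u)) = e3_wrd e h up (x + 1) δ := by
        unfold e3_wrd
        apply List.map_congr_left
        intro u hu
        exact hcon u (List.mem_range.1 hu)
      rw [h3, hFm (x + 1) (by omega)]
      exact h2
  · by_contra hcon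
    push Not at hcon
    apply hone x hx
    rw [hS]
    exact Finset.mem_union_right _ (Finset.mem_union_left _ (hpop (g x) hcon))

end Pool.Agent.H54P
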